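import Pool.Agent.SFF.Defs

/-!
# SFF, module Asm: from a circuit whose sums do not cancel to a monotone reduction
-/

set_option autoImplicit false

namespace Pool.Agent.SFF

open Finset Pool.Agent.STH Pool.Agent.STD Pool.Agent.STS Pool.Agent.SFR Pool.Agent.SFP

namespace Asm

variable {n s : ℕ}

/-- the value of a monomial -/
noncomputable def mono (m : Mo n) (w : Fin n → Bool → ℝ) : ℝ :=
  ∏ q : Fin n × Bool, w q.1 q.2 ^ m q

lemma mono_pos (m : Mo n) {w : Fin n → Bool → ℝ} (hw : ∀ i b, 0 < w i b) : 0 < mono m w :=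
  prod_pos fun q _ => pow_pos (hw q.1 q.2) _

lemma mono_add (m m' : Mo n) (w : Fin n → Bool → ℝ) :
    mono (m + m') w = mono m w * mono m' w := by
  unfold mono
  rw [← prod_mul_distrib]
  refine prod_congr rfl fun q _ => ?_
  rw [← pow_add]
  rfl

lemma mono_zero (w : Fin n → Bool → ℝ) : mono (0 : Mo n) w = 1 := by
  simp [mono]

lemma mono_sum {N : ℕ} (μ : Fin N → Mo n) (w : Fin n → Bool → ℝ) :
    mono (∑ j, μ j) w = ∏ j, mono (μ j) w := by
  have : ∀ S : Finset (Fin N), mono (∑ j ∈ S, μ j) w = ∏ j ∈ S, mono (μ j) w := by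
    intro S
    induction S using Finset.induction_on with
    | empty => simp [mono_zero]
    | insert i S hi ih => rw [sum_insert hi, prod_insert hi, mono_add, ih]
  exact this univ

lemma mono_single (i : Fin n) (b : Bool) (w : Fin n → Bool → ℝ) :
    mono (Finsupp.single (i, b) 1) w = w i b := by
  unfold mono
  rw [prod_eq_single (i, b)]
  · simp
  · intro q _ hq
    rw [Finsupp.single_eq_of_ne hq, pow_zero]
  · simp

lemma ix_apply (x : Pt n) (q : Fin n × Bool) : ix x q = if x q.1 = q.2 then 1 else 0 := rfl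

lemma mono_ix (x : Pt n) (w : Fin n → Bool → ℝ) : mono (ix x) w = ∏ i, w i (x i) := by
  unfold mono
  rw [← univ_product_univ, prod_product]
  refine prod_congr rfl fun i _ => ?_
  rw [prod_eq_single (x i)]
  · simp [ix_apply]
  · intro b _ hb
    simp [ix_apply, Ne.symm hb]
  · simp

lemma ix_inj {x x' : Pt n} (h : ix x = ix x') : x = x' := by
  funext i
  have h1 := DFunLike.congr_fun h (i, x i)
  rw [ix_apply, ix_apply] at h1
  by_contra hne
  have : ¬ x' i = x i := fun e => hne e.symm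
  simp [this] at h1

lemma wt_add (m m' : Mo n) (i : Fin n) : wt (m + m') i = wt m i + wt m' i := by
  unfold wt
  rw [Finsupp.add_apply, Finsupp.add_apply]
  omega

lemma wt_ix (x : Pt n) (i : Fin n) : wt (ix x) i = 1 := by
  unfold wt
  rw [ix_apply, ix_apply]
  cases x i <;> simp

/-- the value of a set of monomials -/
noncomputable def Pw (w : Fin n → Bool → ℝ) (S : Finset (Mo n)) : ℝ := ∑ m ∈ S, mono m w

lemma Pw_mono {w : Fin n → Bool → ℝ} (hw : ∀ i b, 0 < w i b) {S T : Finset (Mo n)} (h : S ⊆ T) :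
    Pw w S ≤ Pw w T :=
  sum_le_sum_of_subset_of_nonneg h fun m _ _ => (mono_pos m hw).le

lemma Pw_nonneg {w : Fin n → Bool → ℝ} (hw : ∀ i b, 0 < w i b) (S : Finset (Mo n)) :
    0 ≤ Pw w S := sum_nonneg fun m _ => (mono_pos m hw).le

lemma exists_tuple {N : ℕ} (Q : Fin N → Po n) (m : Mo n) (hm : m ∈ (∏ j, Q j).support) :
    ∃ μ : Fin N → Mo n, (∀ j, μ j ∈ (Q j).support) ∧ ∑ j, μ j = m := by
  classical
  induction N generalizing m with
  | zero =>
    refine ⟨fun j => j.elim0, fun j => j.elim0, ?_⟩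
    rw [Fin.prod_univ_zero, MvPolynomial.mem_support_iff, MvPolynomial.coeff_one] at hm
    by_contra hne
    rw [Fin.sum_univ_zero] at hne
    exact hm (if_neg hne)
  | succ N ih =>
    rw [Fin.prod_univ_succ] at hm
    have h1 := MvPolynomial.support_mul _ _ hm
    rw [Finset.mem_add] at h1
    obtain ⟨a, ha, b, hb, hab⟩ := h1
    obtain ⟨μ, hμ, hs⟩ := ih (fun j => Q j.succ) b hb
    refine ⟨Fin.cons a μ, ?_, ?_⟩
    · intro j
      refine Fin.cases ?_ (fun j => ?_) j
      · simpa using ha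
      · simpa using hμ j
    · rw [Fin.sum_univ_succ]
      simp only [Fin.cons_zero, Fin.cons_succ]
      rw [hs, hab]

/-- the product of the values is the sum over the tuples -/
lemma prod_Pw {N : ℕ} (Q : Fin N → Po n) (w : Fin n → Bool → ℝ) :
    ∏ j, Pw w (Q j).support =
      ∑ μ ∈ Fintype.piFinset fun j => (Q j).support, mono (∑ j, μ j) w := by
  unfold Pw
  rw [prod_univ_sum]
  refine sum_congr rfl fun μ _ => ?_
  rw [mono_sum]

lemma Pw_prod_le {N : ℕ} (Q : Fin N → Po n) {w : Fin n → Bool → ℝ} (hw : ∀ i b, 0 < w i b) :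
    Pw w (∏ j, Q j).support ≤ ∏ j, Pw w (Q j).support := by
  classical
  rw [prod_Pw]
  have hc : ∀ m : {m // m ∈ (∏ j, Q j).support}, ∃ μ : Fin N → Mo n,
      (∀ j, μ j ∈ (Q j).support) ∧ ∑ j, μ j = m.1 := fun m => exists_tuple Q m.1 m.2
  choose g hg1 hg2 using hc
  have hinj : Function.Injective g := by
    intro m m' h
    apply Subtype.ext
    rw [← hg2 m, ← hg2 m', h]
  calc Pw w (∏ j, Q j).support = ∑ m : {m // m ∈ (∏ j, Q j).support}, mono m.1 w := by
        unfold Pw
        rw [← Finset.sum_coe_sort]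
    _ = ∑ m : {m // m ∈ (∏ j, Q j).support}, mono (∑ j, g m j) w :=
        sum_congr rfl fun m _ => by rw [hg2]
    _ = ∑ μ ∈ univ.image g, mono (∑ j, μ j) w := by
        rw [sum_image fun a _ b _ h => hinj h]
    _ ≤ _ := by
        refine sum_le_sum_of_subset_of_nonneg ?_ fun μ _ _ => (mono_pos _ hw).le
        intro μ hμ
        rw [mem_image] at hμ
        obtain ⟨m, _, rfl⟩ := hμ
        exact Fintype.mem_piFinset.2 (hg1 m)

lemma prod_Pw_le {N : ℕ} (Q : Fin N → Po n) {w : Fin n → Bool → ℝ} (hw : ∀ i b, 0 < w i b)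
    (hB : ∀ μ : Fin N → Mo n, (∀ j, μ j ∈ (Q j).support) → ∑ j, μ j ∈ (∏ j, Q j).support) :
    ∏ j, Pw w (Q j).support ≤
      ((Fintype.piFinset fun j => (Q j).support).card : ℝ) * Pw w (∏ j, Q j).support := by
  rw [prod_Pw, ← nsmul_eq_mul]
  refine sum_le_card_nsmul _ _ _ fun μ hμ => ?_
  exact single_le_sum (f := fun m => mono m w) (fun m _ => (mono_pos m hw).le)
    (hB μ fun j => Fintype.mem_piFinset.1 hμ j)

/-- live nodes -/
def Live (Q : Fin s → Po n) (r v : Fin s) : Prop :=
  Q v ≠ 0 ∧ ∃ c : Mo n, ∀ m ∈ (Q v).support, c + m ∈ (Q r).support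

open Classical in
/-- the values of the reduction -/
noncomputable def val (Q : Fin s → Po n) (r v : Fin s) (w : Fin n → Bool → ℝ) : ℝ :=
  if Live Q r v then Pw w (Q v).support else 0

lemma val_live {Q : Fin s → Po n} {r v : Fin s} (h : Live Q r v) (w : Fin n → Bool → ℝ) :
    val Q r v w = Pw w (Q v).support := if_pos h

lemma val_dead {Q : Fin s → Po n} {r v : Fin s} (h : ¬ Live Q r v) (w : Fin n → Bool → ℝ) :
    val Q r v w = 0 := if_neg h

lemma val_nonneg (Q : Fin s → Po n) (r v : Fin s) {w : Fin n → Bool → ℝ}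
    (hw : ∀ i b, 0 < w i b) : 0 ≤ val Q r v w := by
  by_cases h : Live Q r v
  · rw [val_live h]
    exact Pw_nonneg hw _
  · rw [val_dead h]

/-- no collisions below a live node -/
lemma blk (hB : St_Blk) {Q : Fin s → Po n} {r v : Fin s}
    (hr : ∀ m ∈ (Q r).support, ∃ x, m = ix x) (hv : Live Q r v) {N : ℕ} (c : Fin N → Fin s)
    (hs : (∏ j, Q (c j)).support ⊆ (Q v).support) :
    ∀ μ : Fin N → Mo n, (∀ j, μ j ∈ (Q (c j)).support) →
      ∑ j, μ j ∈ (∏ j, Q (c j)).support := by
  obtain ⟨_, c₀, hc₀⟩ := hv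
  refine hB n N (fun j => Q (c j)) c₀ ?_
  intro m hm i
  obtain ⟨x, hx⟩ := hr _ (hc₀ m (hs hm))
  rw [← wt_add, hx, wt_ix]

/-- the children of a live node are live -/
lemma child (hB : St_Blk) {Q : Fin s → Po n} {r v : Fin s}
    (hr : ∀ m ∈ (Q r).support, ∃ x, m = ix x) (hv : Live Q r v) {N : ℕ} (c : Fin N → Fin s)
    (hs : (∏ j, Q (c j)).support ⊆ (Q v).support) (h0 : ∀ j, Q (c j) ≠ 0) (j : Fin N) :
    Live Q r (c j) := by
  classical
  have hb := blk hB hr hv c hs
  obtain ⟨_, c₀, hc₀⟩ := hv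
  have hne : ∀ j, ∃ m, m ∈ (Q (c j)).support := fun j =>
    Finset.nonempty_iff_ne_empty.2 fun h => h0 j (MvPolynomial.support_eq_empty.1 h)
  choose μ hμ using hne
  refine ⟨h0 j, c₀ + ∑ l ∈ univ \ {j}, μ l, fun m hm => ?_⟩
  have h1 := hb (Function.update μ j m) (by
    intro l
    by_cases hl : l = j
    · subst hl
      simpa using hm
    · simpa [Function.update_of_ne hl] using hμ l)
  rw [Finset.sum_update_of_mem (mem_univ j)] at h1
  have h2 := hc₀ _ (hs h1)
  have h3 : c₀ + ∑ l ∈ univ \ {j}, μ l + m = c₀ + (m + ∑ l ∈ univ \ {j}, μ l) := by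
    rw [add_assoc, add_comm m]
  rw [h3]
  exact h2

lemma prod_val (hB : St_Blk) {Q : Fin s → Po n} {r v : Fin s}
    (hr : ∀ m ∈ (Q r).support, ∃ x, m = ix x) (hv : Live Q r v) {N : ℕ} (c : Fin N → Fin s)
    (hs : (∏ j, Q (c j)).support ⊆ (Q v).support) (w : Fin n → Bool → ℝ) :
    ∏ j, val Q r (c j) w = ∏ j, Pw w (Q (c j)).support := by
  by_cases h0 : ∀ j, Q (c j) ≠ 0
  · exact prod_congr rfl fun j _ => val_live (child hB hr hv c hs h0 j) w
  · push Not at h0
    obtain ⟨j, hj⟩ := h0
    rw [prod_eq_zero (mem_univ j) (val_dead (fun h => h.1 hj) w),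
      prod_eq_zero (mem_univ j) (by rw [hj]; simp [Pw])]

/-- the rule of a live node -/
lemma gate (hB : St_Blk) {Q : Fin s → Po n} {r v : Fin s}
    (hr : ∀ m ∈ (Q r).support, ∃ x, m = ix x) (hv : Live Q r v) {N : ℕ}
    (ψ : (Fin N → Bool) → Prop) (c : Fin N → Bool → Fin s)
    (h1 : ∀ y, ψ y → (∏ j, Q (c j (y j))).support ⊆ (Q v).support)
    (h2 : ∀ m ∈ (Q v).support, ∃ y, ψ y ∧ m ∈ (∏ j, Q (c j (y j))).support) :
    ∃ α β : ℝ, 0 < α ∧ ∀ w : Fin n → Bool → ℝ, (∀ i b, 0 < w i b) →
      α * wcount ψ (fun j b => val Q r (c j b) w) ≤ val Q r v w ∧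
      val Q r v w ≤ β * wcount ψ (fun j b => val Q r (c j b) w) := by
  classical
  set M : ℝ := ∑ y : Fin N → Bool,
    ((Fintype.piFinset fun j => (Q (c j (y j))).support).card : ℝ) with hM
  have hM0 : 0 ≤ M := sum_nonneg fun y _ => Nat.cast_nonneg _
  refine ⟨1 / (M + 1), 1, one_div_pos.2 (by linarith), fun w hw => ?_⟩
  have hwc : wcount ψ (fun j b => val Q r (c j b) w) =
      ∑ y : Fin N → Bool, if ψ y then ∏ j, Pw w (Q (c j (y j))).support else 0 := by
    unfold wcount
    refine sum_congr rfl fun y _ => ?_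
    by_cases hy : ψ y
    · rw [if_pos hy, if_pos hy]
      exact prod_val hB hr hv (fun j => c j (y j)) (h1 y hy) w
    · rw [if_neg hy, if_neg hy]
  rw [hwc, val_live hv]
  have hP0 := Pw_nonneg hw (Q v).support
  constructor
  · have h3 : (∑ y : Fin N → Bool, if ψ y then ∏ j, Pw w (Q (c j (y j))).support else 0) ≤
        M * Pw w (Q v).support := by
      rw [hM, sum_mul]
      refine sum_le_sum fun y _ => ?_
      by_cases hy : ψ y
      · rw [if_pos hy]
        refine (prod_Pw_le (fun j => Q (c j (y j))) hw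
          (blk hB hr hv (fun j => c j (y j)) (h1 y hy))).trans ?_
        exact mul_le_mul_of_nonneg_left (Pw_mono hw (h1 y hy)) (Nat.cast_nonneg _)
      · rw [if_neg hy]
        exact mul_nonneg (Nat.cast_nonneg _) hP0
    have h4 : (0 : ℝ) < M + 1 := by linarith
    rw [one_div, inv_mul_le_iff₀ h4, add_mul, one_mul]
    linarith
  · rw [one_mul]
    have h5 : ∀ m ∈ (Q v).support, mono m w ≤ ∑ y : Fin N → Bool,
        if ψ y ∧ m ∈ (∏ j, Q (c j (y j))).support then mono m w else 0 := by
      intro m hm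
      obtain ⟨y, hy1, hy2⟩ := h2 m hm
      refine le_trans ?_ (single_le_sum (f := fun y : Fin N → Bool =>
        if ψ y ∧ m ∈ (∏ j, Q (c j (y j))).support then mono m w else 0) ?_ (mem_univ y))
      · rw [if_pos ⟨hy1, hy2⟩]
      · intro y _
        split_ifs
        · exact (mono_pos m hw).le
        · exact le_rfl
    calc Pw w (Q v).support ≤ ∑ m ∈ (Q v).support, ∑ y : Fin N → Bool,
        (if ψ y ∧ m ∈ (∏ j, Q (c j (y j))).support then mono m w else 0) := sum_le_sum h5
      _ = ∑ y : Fin N → Bool, ∑ m ∈ (Q v).support,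
        (if ψ y ∧ m ∈ (∏ j, Q (c j (y j))).support then mono m w else 0) := sum_comm
      _ ≤ _ := by
        refine sum_le_sum fun y _ => ?_
        by_cases hy : ψ y
        · rw [if_pos hy]
          refine le_trans ?_ (Pw_prod_le (fun j => Q (c j (y j))) hw)
          unfold Pw
          rw [← sum_filter]
          refine sum_le_sum_of_subset_of_nonneg ?_ fun m _ _ => (mono_pos m hw).le
          intro m hm
          exact (mem_filter.1 hm).2.2
        · rw [if_neg hy]
          refine (sum_eq_zero fun m _ => if_neg fun h => hy h.1).le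

/-- one closed set is a union of closed sets -/
lemma sch_of {N : ℕ} {ψ : (Fin N → Bool) → Prop} (h : SchClosed ψ) : SchUnion 0 ψ :=
  ⟨fun _ => ψ, fun _ => h, fun _ => ⟨fun hy => ⟨⟨0, by simp⟩, hy⟩, fun ⟨_, hy⟩ => hy⟩⟩

lemma sch_zero (ψ : (Fin 0 → Bool) → Prop) : SchClosed ψ := by
  refine ⟨fun i => i.elim0, fun i => i.elim0, fun x y w hx _ _ => ?_⟩
  rwa [show ap (fun i => i.elim0) x y w = x from funext fun i => i.elim0]

lemma sch_one (ψ : (Fin 1 → Bool) → Prop) : SchClosed ψ := by
  refine ⟨fun _ _ b c => b && c, fun _ => Or.inl fun _ _ _ => rfl, fun x y w _ hy hw => ?_⟩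
  have h0 : ∀ f g : Fin 1 → Bool, f 0 = g 0 → f = g := by
    intro f g h
    funext i
    rw [Subsingleton.elim i 0, h]
  cases hy0 : y 0
  · have : ap (fun _ _ b c => b && c) x y w = y := h0 _ _ (by simp [ap, hy0])
    rw [this]
    exact hy
  · have : ap (fun _ _ b c => b && c) x y w = w := h0 _ _ (by simp [ap, hy0])
    rw [this]
    exact hw

lemma sch_two : SchClosed fun y : Fin 2 → Bool => y 0 = true ∧ y 1 = true := by
  refine ⟨fun _ _ b c => b && c, fun _ => Or.inl fun _ _ _ => rfl, fun x y w _ hy hw => ?_⟩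
  simp [ap, hy.1, hy.2, hw.1, hw.2]

end Asm

open Asm

theorem thm_Asm (hB : St_Blk) : St_Asm := by
  classical
  intro K hK n s D Q r Y F hS hYne hF hY
  have hr : ∀ m ∈ (Q r).support, ∃ x, m = ix x := fun m hm =>
    let ⟨x, _, h⟩ := hF m hm; ⟨x, h⟩
  have hrule : ∀ v : Fin s,
      (∃ (i : Fin n) (b : Bool), ∀ w, val Q r v w = w i b) ∨
      (∃ (N : ℕ) (ψ : (Fin N → Bool) → Prop) (c : Fin N → Bool → Fin s), K N ψ ∧
        (∀ j b, c j b < v) ∧ ∃ α β : ℝ, 0 < α ∧ ∀ w : Fin n → Bool → ℝ, (∀ i b, 0 < w i b) →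
          α * wcount ψ (fun j b => val Q r (c j b) w) ≤ val Q r v w ∧
          val Q r v w ≤ β * wcount ψ (fun j b => val Q r (c j b) w)) := by
    intro v
    by_cases hv : Live Q r v
    swap
    · refine Or.inr ⟨0, fun _ => False, fun j => j.elim0, hK _ _ (sch_of (sch_zero _)),
        fun j => j.elim0, 1, 1, one_pos, fun w _ => ?_⟩
      rw [val_dead hv]
      simp [wcount]
    have hSv := hS v
    cases hDv : D v with
    | inp i b =>
      rw [hDv] at hSv
      have hSv : Q v = MvPolynomial.X (i, b) := hSv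
      refine Or.inl ⟨i, b, fun w => ?_⟩
      rw [val_live hv, hSv, MvPolynomial.support_X]
      unfold Pw
      rw [sum_singleton, mono_single]
    | const a =>
      rw [hDv] at hSv
      have hSv : Q v = MvPolynomial.C a := hSv
      have ha : a ≠ 0 := by
        rintro rfl
        exact hv.1 (by rw [hSv, map_zero])
      refine Or.inr ⟨0, fun _ => True, fun j => j.elim0, hK _ _ (sch_of (sch_zero _)),
        fun j => j.elim0, gate hB hr hv _ _ ?_ ?_⟩
      · intro y _ m hm
        rw [Fin.prod_univ_zero, MvPolynomial.mem_support_iff, MvPolynomial.coeff_one] at hm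
        rw [hSv, MvPolynomial.mem_support_iff, MvPolynomial.coeff_C]
        by_cases h0 : 0 = m
        · rw [if_pos h0]
          exact ha
        · exact absurd (if_neg h0) hm
      · intro m hm
        refine ⟨fun j => j.elim0, trivial, ?_⟩
        rw [hSv, MvPolynomial.mem_support_iff, MvPolynomial.coeff_C] at hm
        rw [Fin.prod_univ_zero, MvPolynomial.mem_support_iff, MvPolynomial.coeff_one]
        by_cases h0 : 0 = m
        · rw [if_pos h0]
          exact one_ne_zero
        · exact absurd (if_neg h0) hm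
    | lin A B a b ha hb =>
      rw [hDv] at hSv
      have hSv : ∀ m ∈ (Q v).support,
          (m ∈ (Q a).support ∧ (Q a).support ⊆ (Q v).support) ∨
          (m ∈ (Q b).support ∧ (Q b).support ⊆ (Q v).support) := hSv
      refine Or.inr ⟨1, fun y => (Q (if y 0 then b else a)).support ⊆ (Q v).support,
        fun _ t => if t then b else a, hK _ _ (sch_of (sch_one _)), ?_,
        gate hB hr hv _ _ ?_ ?_⟩
      · intro _ t
        cases t
        · simpa using ha
        · simpa using hb
      · intro y hy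
        simpa using hy
      · intro m hm
        rcases hSv m hm with ⟨h1, h2⟩ | ⟨h1, h2⟩
        · exact ⟨fun _ => false, by simpa using h2, by simpa using h1⟩
        · exact ⟨fun _ => true, by simpa using h2, by simpa using h1⟩
    | mul a b ha hb =>
      rw [hDv] at hSv
      have hSv : (Q v).support = (Q a * Q b).support := hSv
      refine Or.inr ⟨2, fun y => y 0 = true ∧ y 1 = true, fun j _ => if j = 0 then a else b,
        hK _ _ (sch_of sch_two), ?_, gate hB hr hv _ _ ?_ ?_⟩
      · intro j _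
        change (if j = 0 then a else b) < v
        split_ifs
        · exact ha
        · exact hb
      · intro y _
        rw [hSv, Fin.prod_univ_two]
        simp
      · intro m hm
        refine ⟨fun _ => true, ⟨rfl, rfl⟩, ?_⟩
        rw [hSv] at hm
        rw [Fin.prod_univ_two]
        simpa using hm
    | orc N ψ κ c hψ hκ hc =>
      rw [hDv] at hSv
      have hSv : (∀ y, ψ y → (∏ j, Q (c j (y j))).support ⊆ (Q v).support) ∧
        ∀ m ∈ (Q v).support, ∃ y, ψ y ∧ m ∈ (∏ j, Q (c j (y j))).support := hSv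
      exact Or.inr ⟨N, ψ, c, hψ, hc, gate hB hr hv _ _ hSv.1 hSv.2⟩
  refine ⟨⟨val Q r, hrule⟩, fun w hw => ?_⟩
  obtain ⟨x₁, hx₁⟩ := hYne
  have hlive : Live Q r r := by
    refine ⟨fun h => ?_, 0, fun m hm => by rwa [zero_add]⟩
    have := hY x₁ hx₁
    rw [h] at this
    simp at this
  change 1 * wcount Y w ≤ val Q r r w ∧ val Q r r w ≤ 1 * wcount F w
  rw [val_live hlive, one_mul, one_mul]
  have hwc : ∀ G : Pt n → Prop, wcount G w = Pw w ((univ.filter G).image ix) := by
    intro G
    unfold wcount Pw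
    rw [sum_image fun a _ b _ h => ix_inj h, sum_filter]
    exact sum_congr rfl fun x _ => by rw [mono_ix]
  constructor
  · rw [hwc]
    refine Pw_mono hw fun m hm => ?_
    rw [mem_image] at hm
    obtain ⟨x, hx, rfl⟩ := hm
    exact hY x (mem_filter.1 hx).2
  · rw [hwc]
    refine Pw_mono hw fun m hm => ?_
    obtain ⟨x, hx, rfl⟩ := hF m hm
    exact mem_image.2 ⟨x, mem_filter.2 ⟨mem_univ _, hx⟩, rfl⟩

end Pool.Agent.SFF
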