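import Pool.Agent.SFF.Defs

/-!
# SFF, module Blk: no collisions in set-multilinear products
-/

set_option autoImplicit false

namespace Pool.Agent.SFF

open Finset Pool.Agent.STH Pool.Agent.STD Pool.Agent.STS Pool.Agent.SFR Pool.Agent.SFP

/-- scaling of one block by a new variable -/
private noncomputable def sc {n : ℕ} (i : Fin n) : Po n →+* Polynomial (Po n) :=
  MvPolynomial.eval₂Hom (Polynomial.C.comp MvPolynomial.C)
    (fun q => Polynomial.X ^ (if q.1 = i then 1 else 0) * Polynomial.C (MvPolynomial.X q))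

private theorem sc_monomial {n : ℕ} (i : Fin n) (m : Mo n) (a : ℝ) :
    sc i (MvPolynomial.monomial m a) =
      Polynomial.monomial (wt m i) (MvPolynomial.monomial m a) := by
  classical
  unfold sc
  rw [MvPolynomial.eval₂Hom_monomial, Finsupp.prod_fintype _ _ (fun q => by rw [pow_zero])]
  have h1 : ∀ q : Fin n × Bool, (Polynomial.X ^ (if q.1 = i then 1 else 0) *
      Polynomial.C (MvPolynomial.X q : Po n)) ^ m q =
      Polynomial.X ^ ((if q.1 = i then 1 else 0) * m q) *
        Polynomial.C ((MvPolynomial.X q : Po n) ^ m q) := by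
    intro q
    rw [mul_pow, ← pow_mul, Polynomial.C_pow]
  simp only [h1]
  rw [prod_mul_distrib, prod_pow_eq_pow_sum, ← map_prod]
  have h2 : ∑ q : Fin n × Bool, (if q.1 = i then 1 else 0) * m q = wt m i := by
    rw [Fintype.sum_prod_type, sum_eq_single i]
    · rw [Fintype.sum_bool]
      simp only [if_true, one_mul]
      unfold wt
      exact add_comm _ _
    · intro b _ hb
      rw [Fintype.sum_bool]
      simp [hb]
    · intro h
      exact absurd (mem_univ _) h
  rw [h2]
  have h3 : (MvPolynomial.monomial m a : Po n) =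
      MvPolynomial.C a * ∏ q, (MvPolynomial.X q : Po n) ^ m q := by
    rw [MvPolynomial.monomial_eq, Finsupp.prod_fintype _ _ (fun q => by rw [pow_zero])]
  rw [h3, ← Polynomial.C_mul_X_pow_eq_monomial, Polynomial.C_mul]
  simp only [RingHom.comp_apply]
  ring

private theorem sc_coeff {n : ℕ} (i : Fin n) (p : Po n) (k : ℕ) (m : Mo n) :
    MvPolynomial.coeff m ((sc i p).coeff k) =
      if wt m i = k then MvPolynomial.coeff m p else 0 := by
  classical
  induction p using MvPolynomial.induction_on' with
  | monomial m' a =>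
    rw [sc_monomial, Polynomial.coeff_monomial, MvPolynomial.coeff_monomial]
    by_cases h1 : m' = m
    · subst h1
      by_cases h2 : wt m' i = k
      · rw [if_pos h2, if_pos h2, MvPolynomial.coeff_monomial]
      · rw [if_neg h2, if_neg h2, MvPolynomial.coeff_zero]
    · rw [if_neg h1, ite_self]
      split_ifs
      · rw [MvPolynomial.coeff_monomial, if_neg h1]
      · rw [MvPolynomial.coeff_zero]
  | add p q hp hq =>
    rw [map_add, Polynomial.coeff_add, MvPolynomial.coeff_add, hp, hq, MvPolynomial.coeff_add]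
    split_ifs
    · rfl
    · rw [add_zero]

private theorem sc_ne {n : ℕ} (i : Fin n) {p : Po n} (h : p ≠ 0) : sc i p ≠ 0 := by
  classical
  obtain ⟨m, hm⟩ := MvPolynomial.ne_zero_iff.1 h
  intro h0
  have h1 := sc_coeff i p (wt m i) m
  rw [if_pos rfl, h0, Polynomial.coeff_zero, MvPolynomial.coeff_zero] at h1
  exact hm h1.symm

private theorem blk_hom {n : ℕ} (i : Fin n) (p q : Po n) (d : ℕ) (hp : p ≠ 0) (hq : q ≠ 0)
    (h : ∀ m ∈ (p * q).support, wt m i = d) : ∃ d1 d2 : ℕ, d1 + d2 = d ∧
      (∀ m ∈ p.support, wt m i = d1) ∧ ∀ m ∈ q.support, wt m i = d2 := by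
  classical
  have hpq : p * q ≠ 0 := mul_ne_zero hp hq
  have hA := sc_ne i hp
  have hB := sc_ne i hq
  have h1 : sc i p * sc i q = Polynomial.monomial d (p * q) := by
    rw [← map_mul]
    ext k m
    rw [sc_coeff, Polynomial.coeff_monomial]
    by_cases h2 : MvPolynomial.coeff m (p * q) = 0
    · rw [h2, ite_self]
      split_ifs
      · exact h2.symm
      · rw [MvPolynomial.coeff_zero]
    · rw [h m (MvPolynomial.mem_support_iff.2 h2)]
      split_ifs
      · rfl
      · rw [MvPolynomial.coeff_zero]
  have h2 : (sc i p).natDegree + (sc i q).natDegree = d := by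
    rw [← Polynomial.natDegree_mul hA hB, h1, Polynomial.natDegree_monomial_eq _ hpq]
  have h3 : (sc i p).natTrailingDegree + (sc i q).natTrailingDegree = d := by
    rw [← Polynomial.natTrailingDegree_mul hA hB, h1, Polynomial.natTrailingDegree_monomial hpq]
  have h4 := Polynomial.natTrailingDegree_le_natDegree (sc i p)
  have h5 := Polynomial.natTrailingDegree_le_natDegree (sc i q)
  have key : ∀ r : Po n, ∀ m ∈ r.support,
      (sc i r).natTrailingDegree ≤ wt m i ∧ wt m i ≤ (sc i r).natDegree := by
    intro r m hm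
    have h6 : (sc i r).coeff (wt m i) ≠ 0 := by
      intro h0
      have h7 := sc_coeff i r (wt m i) m
      rw [if_pos rfl, h0, MvPolynomial.coeff_zero] at h7
      exact MvPolynomial.mem_support_iff.1 hm h7.symm
    exact ⟨Polynomial.natTrailingDegree_le_of_ne_zero h6, Polynomial.le_natDegree_of_ne_zero h6⟩
  refine ⟨(sc i p).natDegree, (sc i q).natDegree, h2, fun m hm => ?_, fun m hm => ?_⟩
  · have := key p m hm
    omega
  · have := key q m hm
    omega

private theorem blk_two {n : ℕ} (p q : Po n) (d : Fin n → ℕ) (hd : ∀ i, d i ≤ 1) (hp : p ≠ 0)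
    (hq : q ≠ 0) (h : ∀ m ∈ (p * q).support, ∀ i, wt m i = d i) :
    (∃ d2 : Fin n → ℕ, (∀ i, d2 i ≤ 1) ∧ ∀ m ∈ q.support, ∀ i, wt m i = d2 i) ∧
      ∀ m ∈ p.support, ∀ m' ∈ q.support, m + m' ∈ (p * q).support := by
  classical
  choose d1 d2 h1 h2 h3 using fun i => blk_hom i p q (d i) hp hq fun m hm => h m hm i
  refine ⟨⟨d2, fun i => ?_, fun m hm i => h3 i m hm⟩, ?_⟩
  · have := h1 i
    have := hd i
    omega
  · intro m hm m' hm'
    rw [MvPolynomial.mem_support_iff, MvPolynomial.coeff_mul,
      sum_eq_single (m, m')]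
    · exact mul_ne_zero (MvPolynomial.mem_support_iff.1 hm) (MvPolynomial.mem_support_iff.1 hm')
    · rintro ⟨u, u'⟩ hu hne
      rw [HasAntidiagonal.mem_antidiagonal] at hu
      by_contra h0
      have hu1 : u ∈ p.support := MvPolynomial.mem_support_iff.2 (left_ne_zero_of_mul h0)
      have hu2 : u' ∈ q.support := MvPolynomial.mem_support_iff.2 (right_ne_zero_of_mul h0)
      apply hne
      have hw : ∀ q, u q + u' q = m q + m' q := by
        intro q
        have := DFunLike.congr_fun hu q
        simpa using this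
      have hall : ∀ q, u q = m q ∧ u' q = m' q := by
        rintro ⟨i, b⟩
        have a1 := h2 i m hm
        have a2 := h2 i u hu1
        have a3 := h3 i m' hm'
        have a4 := h3 i u' hu2
        have a5 := h1 i
        have a6 := hd i
        have a7 := hw (i, b)
        unfold wt at a1 a2 a3 a4
        rcases (by omega : d1 i = 0 ∨ d2 i = 0) with h0 | h0
        · cases b <;> omega
        · cases b <;> omega
      rw [Prod.mk.injEq]
      exact ⟨Finsupp.ext fun q => (hall q).1, Finsupp.ext fun q => (hall q).2⟩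
    · intro h0
      exact (h0 (by rw [HasAntidiagonal.mem_antidiagonal])).elim

theorem thm_Blk : St_Blk := by
  classical
  have main : ∀ (n N : ℕ) (Q : Fin N → Po n) (d : Fin n → ℕ), (∀ i, d i ≤ 1) →
      (∀ m ∈ (∏ j, Q j).support, ∀ i, wt m i = d i) → ∀ μ : Fin N → Mo n,
      (∀ j, μ j ∈ (Q j).support) → ∑ j, μ j ∈ (∏ j, Q j).support := by
    intro n N
    induction N with
    | zero =>
      intro Q d _ _ μ _
      rw [Finset.univ_eq_empty, sum_empty, prod_empty, MvPolynomial.mem_support_iff,
        MvPolynomial.coeff_zero_one]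
      exact one_ne_zero
    | succ N ih =>
      intro Q d hd h μ hμ
      have hQ : ∀ j, Q j ≠ 0 := by
        intro j h0
        have := hμ j
        rw [h0] at this
        simp at this
      rw [Fin.prod_univ_succ] at h ⊢
      rw [Fin.sum_univ_succ]
      obtain ⟨⟨d2, e1, e2⟩, e3⟩ := blk_two (Q 0) (∏ j : Fin N, Q j.succ) d hd (hQ 0)
        (prod_ne_zero_iff.2 fun j _ => hQ _) h
      exact e3 _ (hμ 0) _ (ih (fun j => Q j.succ) d2 e1 e2 (fun j => μ j.succ) fun j => hμ _)
  intro n N Q c h μ hμ
  refine main n N Q (fun i => 1 - wt c i) (fun i => Nat.sub_le _ _) (fun m hm i => ?_) μ hμ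
  have := h m hm i
  omega

end Pool.Agent.SFF
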