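import Pool.Agent.SFF.Defs

/-!
# Numerically stable algorithms: a polynomial between two weighted model counts
-/

set_option autoImplicit false

namespace Pool.Agent.SFF

open Finset Pool.Agent.STH Pool.Agent.STD Pool.Agent.STS Pool.Agent.SFR Pool.Agent.SFP

namespace Bnd

variable {n : ℕ}

/-- evaluation as a sum -/
private theorem ev_eq (w : Fin n → Bool → ℝ) (p : Po n) :
    ev w p = ∑ m ∈ p.support, p.coeff m * ∏ q : Fin n × Bool, w q.1 q.2 ^ m q := by
  unfold ev
  rw [MvPolynomial.eval_eq']

private theorem ev_cont (p : Po n) : Continuous fun w : Fin n → Bool → ℝ => ev w p := by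
  unfold ev
  refine (MvPolynomial.continuous_eval p).comp ?_
  exact continuous_pi fun q => (continuous_apply q.2).comp (continuous_apply q.1)

private theorem wc_cont (F : Pt n → Prop) : Continuous fun w : Fin n → Bool → ℝ => wcount F w := by
  unfold wcount
  refine continuous_finsetSum _ fun x _ => ?_
  by_cases h : F x
  · simp only [h, if_true]
    exact continuous_finsetProd _ fun i _ => (continuous_apply (x i)).comp (continuous_apply i)
  · simp only [h, if_false]
    exact continuous_const

/-- an inequality between continuous functions extends to nonnegative weights -/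
private theorem ext_nonneg {f g : (Fin n → Bool → ℝ) → ℝ} (hf : Continuous f) (hg : Continuous g)
    (h : ∀ w : Fin n → Bool → ℝ, (∀ i b, 0 < w i b) → f w ≤ g w) (w : Fin n → Bool → ℝ)
    (hw : ∀ i b, 0 ≤ w i b) : f w ≤ g w := by
  have hc : Continuous fun ε : ℝ => (fun i b => w i b + ε : Fin n → Bool → ℝ) :=
    continuous_pi fun i => continuous_pi fun b => continuous_const.add continuous_id
  have h0 : (fun i b => w i b + (0 : ℝ) : Fin n → Bool → ℝ) = w := by
    funext i b
    exact add_zero _
  have h1 := (hf.comp hc).tendsto 0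
  have h2 := (hg.comp hc).tendsto 0
  simp only [Function.comp_def] at h1 h2
  rw [h0] at h1 h2
  refine le_of_tendsto_of_tendsto (h1.mono_left (nhdsWithin_le_nhds (s := Set.Ioi 0)))
    (h2.mono_left (nhdsWithin_le_nhds (s := Set.Ioi 0))) ?_
  filter_upwards [self_mem_nhdsWithin] with ε hε
  exact h _ fun i b => add_pos_of_nonneg_of_pos (hw i b) hε

/-- a polynomial in one variable between `0` and `c * T` for `0 < T` -/
private theorem one_var (g : Polynomial ℝ) (c : ℝ) (h0 : ∀ T : ℝ, 0 < T → 0 ≤ g.eval T)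
    (h1 : ∀ T : ℝ, 0 < T → g.eval T ≤ c * T) (k : ℕ) (hk : k ≠ 1) : g.coeff k = 0 := by
  rcases Nat.lt_or_ge 1 k with hk1 | hk1
  · by_contra hne
    have hd : (Polynomial.X : Polynomial ℝ).degree < g.degree := by
      rw [Polynomial.degree_X]
      refine lt_of_lt_of_le ?_ (Polynomial.le_degree_of_ne_zero hne)
      exact_mod_cast hk1
    have ht := Polynomial.abs_div_tendsto_atTop_atTop_of_degree_gt g Polynomial.X hd
      Polynomial.X_ne_zero
    obtain ⟨T, hT1, hT2⟩ := ((ht.eventually (Filter.eventually_gt_atTop c)).and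
      (Filter.eventually_gt_atTop 0)).exists
    rw [Polynomial.eval_X, abs_of_nonneg (div_nonneg (h0 T hT2) hT2.le), lt_div_iff₀ hT2] at hT1
    exact absurd hT1 (not_lt.2 (h1 T hT2))
  · have hk0 : k = 0 := by omega
    subst hk0
    rw [Polynomial.coeff_zero_eq_eval_zero]
    have hc : Filter.Tendsto (fun T : ℝ => g.eval T) (nhdsWithin 0 (Set.Ioi 0))
        (nhds (g.eval 0)) := (g.continuous.tendsto 0).mono_left nhdsWithin_le_nhds
    have hc' : Filter.Tendsto (fun T : ℝ => c * T) (nhdsWithin 0 (Set.Ioi 0))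
        (nhds (c * 0)) :=
      ((continuous_const.mul continuous_id).tendsto 0).mono_left nhdsWithin_le_nhds
    rw [mul_zero] at hc'
    refine le_antisymm (le_of_tendsto_of_tendsto hc hc' ?_) (ge_of_tendsto hc ?_)
    · filter_upwards [self_mem_nhdsWithin] with T hT
      exact h1 T hT
    · filter_upwards [self_mem_nhdsWithin] with T hT
      exact h0 T hT

/-- scaling a block -/
private def sc (i : Fin n) (T : ℝ) (w : Fin n → Bool → ℝ) : Fin n → Bool → ℝ :=
  fun i' b => (if i' = i then T else 1) * w i' b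

private theorem sc_mon (i : Fin n) (T : ℝ) (w : Fin n → Bool → ℝ) (m : Mo n) :
    ∏ q : Fin n × Bool, sc i T w q.1 q.2 ^ m q =
      (∏ q : Fin n × Bool, w q.1 q.2 ^ m q) * T ^ wt m i := by
  have h1 : ∀ q : Fin n × Bool, sc i T w q.1 q.2 ^ m q =
      w q.1 q.2 ^ m q * (if q.1 = i then T else 1) ^ m q := by
    intro q
    unfold sc
    rw [mul_pow, mul_comm]
  rw [Finset.prod_congr rfl fun q _ => h1 q, Finset.prod_mul_distrib]
  congr 1
  rw [Fintype.prod_prod_type]
  have h2 : ∀ i' : Fin n, ∏ b : Bool, (if ((i', b) : Fin n × Bool).1 = i then T else 1) ^ m (i', b)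
      = if i' = i then T ^ wt m i' else 1 := by
    intro i'
    rw [Fintype.prod_bool]
    by_cases h : i' = i
    · simp only [h, if_true]
      unfold wt
      rw [← pow_add, add_comm]
    · simp only [h, if_false, one_pow, mul_one]
  rw [Finset.prod_congr rfl fun i' _ => h2 i', Finset.prod_ite_eq' univ i]
  simp

private theorem sc_wc (i : Fin n) (T : ℝ) (w : Fin n → Bool → ℝ) (F : Pt n → Prop) :
    wcount F (sc i T w) = T * wcount F w := by
  unfold wcount
  rw [Finset.mul_sum]
  refine Finset.sum_congr rfl fun x _ => ?_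
  by_cases h : F x
  · simp only [h, if_true]
    unfold sc
    rw [Finset.prod_mul_distrib, Finset.prod_ite_eq' univ i]
    simp
  · simp only [h, if_false, mul_zero]

/-- all monomials have degree 1 in every block -/
private theorem deg_one (p : Po n) (F : Pt n → Prop) (β : ℝ)
    (h0 : ∀ w : Fin n → Bool → ℝ, (∀ i b, 0 < w i b) → 0 ≤ ev w p)
    (h1 : ∀ w : Fin n → Bool → ℝ, (∀ i b, 0 < w i b) → ev w p ≤ β * wcount F w)
    (m : Mo n) (hm : m ∈ p.support) (i : Fin n) : wt m i = 1 := by
  classical
  by_contra hk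
  obtain ⟨P, hP⟩ : ∃ P : Po n, P = ∑ m' ∈ p.support.filter (fun m' => wt m' i = wt m i),
    MvPolynomial.monomial m' (p.coeff m') := ⟨_, rfl⟩
  have hPm : P.coeff m = p.coeff m := by
    rw [hP, MvPolynomial.coeff_sum, Finset.sum_eq_single m]
    · rw [MvPolynomial.coeff_monomial, if_pos rfl]
    · intro m' _ hne
      rw [MvPolynomial.coeff_monomial, if_neg hne]
    · intro hne
      exact (hne (Finset.mem_filter.2 ⟨hm, rfl⟩)).elim
  have hP0 : P = 0 := by
    refine MvPolynomial.funext_set (fun _ => Set.Ioi (0 : ℝ)) (fun _ => Set.Ioi_infinite 0)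
      fun x hx => ?_
    rw [map_zero]
    obtain ⟨w, hw⟩ : ∃ w : Fin n → Bool → ℝ, w = fun i b => x (i, b) := ⟨_, rfl⟩
    have hw0 : ∀ i b, 0 < w i b := by
      intro i b
      rw [hw]
      exact hx (i, b) (Set.mem_univ _)
    have hx' : MvPolynomial.eval x P = ∑ m' ∈ p.support.filter (fun m' => wt m' i = wt m i),
        p.coeff m' * ∏ q : Fin n × Bool, w q.1 q.2 ^ m' q := by
      rw [hP, map_sum]
      refine Finset.sum_congr rfl fun m' _ => ?_
      rw [MvPolynomial.eval_monomial, Finsupp.prod_fintype _ _ fun _ => pow_zero _, hw]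
    obtain ⟨g, hg⟩ : ∃ g : Polynomial ℝ, g = ∑ m' ∈ p.support,
      Polynomial.C (p.coeff m' * ∏ q : Fin n × Bool, w q.1 q.2 ^ m' q) *
        Polynomial.X ^ wt m' i := ⟨_, rfl⟩
    have hge : ∀ T : ℝ, g.eval T = ev (sc i T w) p := by
      intro T
      rw [hg, ev_eq, Polynomial.eval_finsetSum]
      refine Finset.sum_congr rfl fun m' _ => ?_
      rw [sc_mon, Polynomial.eval_mul, Polynomial.eval_C, Polynomial.eval_pow, Polynomial.eval_X,
        mul_assoc]
    have hgc : g.coeff (wt m i) = MvPolynomial.eval x P := by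
      rw [hx', hg, Polynomial.finsetSum_coeff, Finset.sum_filter]
      refine Finset.sum_congr rfl fun m' _ => ?_
      rw [Polynomial.coeff_C_mul_X_pow]
      by_cases h : wt m' i = wt m i
      · rw [if_pos h.symm, if_pos h]
      · rw [if_neg (Ne.symm h), if_neg h]
    rw [← hgc]
    have hsc : ∀ T : ℝ, 0 < T → ∀ i' b, 0 < sc i T w i' b := by
      intro T hT i' b
      unfold sc
      refine mul_pos ?_ (hw0 i' b)
      split_ifs
      · exact hT
      · exact one_pos
    refine one_var g (β * wcount F w) (fun T hT => ?_) (fun T hT => ?_) (wt m i) hk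
    · rw [hge]
      exact h0 _ (hsc T hT)
    · rw [hge]
      refine (h1 _ (hsc T hT)).trans (le_of_eq ?_)
      rw [sc_wc]
      ring
  rw [hP0, MvPolynomial.coeff_zero] at hPm
  exact (MvPolynomial.mem_support_iff.1 hm) hPm.symm

private theorem ix_apply (x : Pt n) (q : Fin n × Bool) : ix x q = if x q.1 = q.2 then 1 else 0 :=
  rfl

private theorem ix_of (m : Mo n) (h : ∀ i, wt m i = 1) : ∃ y : Pt n, m = ix y := by
  refine ⟨fun i => decide (m (i, true) = 1), ?_⟩
  ext ⟨i, b⟩
  rw [ix_apply]
  have h1 := h i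
  unfold wt at h1
  cases b with
  | true =>
    by_cases h2 : m (i, true) = 1
    · rw [h2]
      simp
    · have h3 : m (i, true) = 0 := by omega
      rw [h3]
      simp
  | false =>
    by_cases h2 : m (i, true) = 1
    · have h3 : m (i, false) = 0 := by omega
      rw [h3]
      simp [h2]
    · have h3 : m (i, false) = 1 := by omega
      rw [h3]
      simp [h2]

/-- the indicator weights of a point -/
private def iw (y : Pt n) : Fin n → Bool → ℝ := fun i b => if y i = b then 1 else 0

private theorem iw_nonneg (y : Pt n) (i : Fin n) (b : Bool) : 0 ≤ iw y i b := by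
  unfold iw
  split_ifs
  · exact zero_le_one
  · exact le_rfl

open Classical in
private theorem iw_wc (y : Pt n) (F : Pt n → Prop) : wcount F (iw y) = if F y then 1 else 0 := by
  unfold wcount
  rw [Finset.sum_eq_single y]
  · have h : ∏ i, iw y i (y i) = 1 := Finset.prod_eq_one fun i _ => if_pos rfl
    rw [h]
  · intro x _ hx
    obtain ⟨i, hi⟩ := Function.ne_iff.1 hx
    have h : ∏ i, iw y i (x i) = 0 :=
      Finset.prod_eq_zero (Finset.mem_univ i) (if_neg (Ne.symm hi))
    rw [h, ite_self]
  · intro h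
    exact absurd (Finset.mem_univ y) h

private theorem iw_ev (p : Po n) (h : ∀ m ∈ p.support, ∃ y : Pt n, m = ix y) (y : Pt n) :
    ev (iw y) p = p.coeff (ix y) := by
  classical
  rw [ev_eq]
  have h1 : ∀ m ∈ p.support, p.coeff m * ∏ q : Fin n × Bool, iw y q.1 q.2 ^ m q =
      if m = ix y then p.coeff (ix y) else 0 := by
    intro m hm
    obtain ⟨y', rfl⟩ := h m hm
    by_cases hy : y' = y
    · subst hy
      rw [if_pos rfl]
      have h2 : ∏ q : Fin n × Bool, iw y' q.1 q.2 ^ ix y' q = 1 := by
        refine Finset.prod_eq_one fun q _ => ?_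
        rw [ix_apply]
        unfold iw
        by_cases hq : y' q.1 = q.2
        · rw [if_pos hq, one_pow]
        · rw [if_neg hq, if_neg hq, pow_zero]
      rw [h2, mul_one]
    · obtain ⟨i, hi⟩ := Function.ne_iff.1 hy
      have h2 : ∏ q : Fin n × Bool, iw y q.1 q.2 ^ ix y' q = 0 := by
        refine Finset.prod_eq_zero (Finset.mem_univ ((i, y' i) : Fin n × Bool)) ?_
        rw [ix_apply]
        unfold iw
        rw [if_neg (Ne.symm hi), if_pos rfl, pow_one]
      have h3 : ix y' ≠ ix y := by
        intro h4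
        have h5 := DFunLike.congr_fun h4 (i, y' i)
        rw [ix_apply, ix_apply, if_pos rfl, if_neg (Ne.symm hi)] at h5
        exact one_ne_zero h5
      rw [h2, mul_zero, if_neg h3]
  rw [Finset.sum_congr rfl h1, Finset.sum_ite_eq']
  split_ifs with h2
  · rfl
  · exact (MvPolynomial.notMem_support_iff.1 h2).symm

private theorem wc_nonneg (F : Pt n → Prop) (w : Fin n → Bool → ℝ) (hw : ∀ i b, 0 ≤ w i b) :
    0 ≤ wcount F w := by
  unfold wcount
  refine Finset.sum_nonneg fun x _ => ?_
  split_ifs
  · exact Finset.prod_nonneg fun i _ => hw i (x i)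
  · exact le_rfl

end Bnd

open Bnd in
theorem thm_Bnd : St_Bnd := by
  classical
  intro n p Y F α β hα h
  have h0 : ∀ w : Fin n → Bool → ℝ, (∀ i b, 0 < w i b) → 0 ≤ ev w p := fun w hw =>
    (mul_nonneg hα.le (wc_nonneg Y w fun i b => (hw i b).le)).trans (h w hw).1
  have hix : ∀ m ∈ p.support, ∃ y : Pt n, m = ix y := fun m hm =>
    ix_of m (deg_one p F β h0 (fun w hw => (h w hw).2) m hm)
  have hlow : ∀ y : Pt n, α * (if Y y then 1 else 0) ≤ p.coeff (ix y) := by
    intro y
    have h1 := ext_nonneg (f := fun w => α * wcount Y w) (g := fun w => ev w p)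
      (continuous_const.mul (wc_cont Y)) (ev_cont p) (fun w hw => (h w hw).1) (iw y) (iw_nonneg y)
    rwa [iw_wc, iw_ev p hix] at h1
  have hup : ∀ y : Pt n, p.coeff (ix y) ≤ β * (if F y then 1 else 0) := by
    intro y
    have h1 := ext_nonneg (f := fun w => ev w p) (g := fun w => β * wcount F w)
      (ev_cont p) (continuous_const.mul (wc_cont F)) (fun w hw => (h w hw).2) (iw y) (iw_nonneg y)
    rwa [iw_wc, iw_ev p hix] at h1
  constructor
  · intro m hm
    obtain ⟨y, rfl⟩ := hix m hm
    refine ⟨y, ?_, rfl⟩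
    by_contra hF
    have h1 := hup y
    rw [if_neg hF, mul_zero] at h1
    have h2 : 0 ≤ p.coeff (ix y) := by
      refine le_trans (mul_nonneg hα.le ?_) (hlow y)
      split_ifs
      · exact zero_le_one
      · exact le_rfl
    exact (MvPolynomial.mem_support_iff.1 hm) (le_antisymm h1 h2)
  · intro y hy
    have h1 := hlow y
    rw [if_pos hy, mul_one] at h1
    exact MvPolynomial.mem_support_iff.2 (hα.trans_le h1).ne'

end Pool.Agent.SFF
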