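import Pool.Agent.SFF.Defs

/-!
# SFF: generic rounding factors close to `1` exist
-/

set_option autoImplicit false

namespace Pool.Agent.SFF

theorem thm_Box : St_Box := by
  intro s A hA η hη
  obtain ⟨p, hp, h⟩ := hA
  by_contra hcon
  push Not at hcon
  refine hp (MvPolynomial.funext_set (fun _ => Set.Icc (1 - η) (1 + η))
    (fun _ => Set.Icc_infinite (by linarith)) fun x hx => ?_)
  rw [map_zero]
  by_contra hne
  refine hcon (fun v i => x (v, i)) (fun v i => ?_) (h _ hne)
  have := hx (v, i) (Set.mem_univ _)
  rw [abs_le]
  constructor <;> linarith [this.1, this.2]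

end Pool.Agent.SFF
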