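import Pool.Agent.SFP.Defs

/-!
# Numerically stable algorithms for weighted model counting: definitions and statements

Arithmetic circuits with subtraction and signed oracle gates (determinants, permanents, signed
sums over the models of 2-CNFs, ...), where every operation is rounded: for generic rounding
factors nothing cancels, and the circuit is a monotone reduction. Paper proof: team-store
SETH_float.md.
-/

set_option autoImplicit false

namespace Pool.Agent.SFF

open Finset Pool.Agent.STH Pool.Agent.STD Pool.Agent.STS Pool.Agent.SFR Pool.Agent.SFP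

/-- The kinds of nodes of a circuit on the weights `w i b`: an input, a real constant, a real
linear combination or a product of two earlier nodes, or an oracle call: the sum over the `y` in
`ψ` (a relation of the class `K`) of the products of the earlier nodes `c j (y j)`, with
coefficients `κ y ≠ 0` of any sign. -/
inductive Gate (K : Cls) (n s : ℕ) (v : Fin s) : Type
  | inp (i : Fin n) (b : Bool) : Gate K n s v
  | const (c : ℝ) : Gate K n s v
  | lin (A B : ℝ) (a b : Fin s) (ha : a < v) (hb : b < v) : Gate K n s v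
  | mul (a b : Fin s) (ha : a < v) (hb : b < v) : Gate K n s v
  | orc (N : ℕ) (ψ : (Fin N → Bool) → Prop) (κ : (Fin N → Bool) → ℝ) (c : Fin N → Bool → Fin s)
      (hψ : K N ψ) (hκ : ∀ y, ψ y → κ y ≠ 0) (hc : ∀ j b, c j b < v) : Gate K n s v

/-- a circuit with `s` nodes -/
abbrev Circ (K : Cls) (n s : ℕ) := ∀ v : Fin s, Gate K n s v

open Classical in
/-- `f` are the values computed at the weights `w` with rounding factors `z` (`1` plus the relative
error): `z v 0` for the result of the operation `v`, and `z v (j + 1)` for the argument `j` (the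
weight of `y j = 1`) of an oracle call `v`. -/
def IsRun {K : Cls} {n s : ℕ} (D : Circ K n s) (z : Fin s → ℕ → ℝ) (w : Fin n → Bool → ℝ)
    (f : Fin s → ℝ) : Prop :=
  ∀ v, match D v with
    | .inp i b => f v = w i b
    | .const c => f v = c
    | .lin A B a b _ _ => f v = z v 0 * (A * f a + B * f b)
    | .mul a b _ _ => f v = z v 0 * (f a * f b)
    | .orc _ ψ κ c _ _ _ => f v = z v 0 * ∑ y, if ψ y then
        κ y * ∏ j, (if y j then z v (j + 1) else 1) * f (c j (y j)) else 0

/-- polynomials in the weights -/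
abbrev Po (n : ℕ) := MvPolynomial (Fin n × Bool) ℝ

/-- exponents -/
abbrev Mo (n : ℕ) := (Fin n × Bool) →₀ ℕ

/-- evaluation -/
noncomputable def ev {n : ℕ} (w : Fin n → Bool → ℝ) (p : Po n) : ℝ :=
  MvPolynomial.eval (fun q => w q.1 q.2) p

/-- degree in the block `i` -/
def wt {n : ℕ} (m : Mo n) (i : Fin n) : ℕ := m (i, false) + m (i, true)

/-- the exponent of a point -/
noncomputable def ix {n : ℕ} (x : Pt n) : Mo n :=
  Finsupp.equivFunOnFinite.symm fun q => if x q.1 = q.2 then 1 else 0

/-- [Blk] no collisions in set-multilinear products. PROOF. Two factors `p`, `q` whose product is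
homogeneous of degree `d i ≤ 1` in every block `i` (the variables `(i, false)`, `(i, true)`):
substitute `X (i, b) ↦ T * X (i, b)` for one block (a map to `Polynomial (Po n)`, a domain): the
image of `p * q` is a monomial in `T`, so `natDegree` and `natTrailingDegree` agree, and both are
additive: both factors are homogeneous in the block (or take `m`, `m'` in the supports with extreme
degrees in the block). So all `m ∈ p.support` have the same `wt m`, same for `q`, and
`wt m i + wt m' i ≤ 1`; so `m + m'` determines `(m, m')` and is in the support of `p * q`. General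
case by induction over the set of the indices. -/
def St_Blk : Prop := ∀ (n N : ℕ) (Q : Fin N → Po n) (c : Mo n),
  (∀ m ∈ (∏ j, Q j).support, ∀ i, wt c i + wt m i = 1) → ∀ μ : Fin N → Mo n,
  (∀ j, μ j ∈ (Q j).support) → ∑ j, μ j ∈ (∏ j, Q j).support

/-- [Bnd] a polynomial between two weighted model counts. PROOF. (1) block `i`: for fixed `w > 0`
the polynomial `T ↦ ev (w with block i scaled by T) p` is `≥ 0` and `≤ β * T * wcount F w` for all
`T > 0` (`wcount F` is homogeneous of degree 1 in every block), so only the coefficient of `T` is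
non-zero (`≤ const * T` at `0` and at `∞`); by `MvPolynomial.funext_set` (positive orthant) the
part of `p` of degree `k ≠ 1` in block `i` is zero. So every `m ∈ p.support` is `ix y` for a `y`.
(2) for such `y` take `w i b = T` if `b = y i`, `1` otherwise: the coefficient of `T ^ n` in `p` is
the coefficient of `ix y`; if not `F y` then `wcount F w ≤ 2 ^ n * T ^ (n - 1)` for `T ≥ 1` (and
`0` if `n = 0`): contradiction as `T → ∞`. (3) for `Y y` the lower bound is `≥ α * T ^ n`. -/
def St_Bnd : Prop := ∀ (n : ℕ) (p : Po n) (Y F : Pt n → Prop) (α β : ℝ), 0 < α →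
  (∀ w : Fin n → Bool → ℝ, (∀ i b, 0 < w i b) →
    α * wcount Y w ≤ ev w p ∧ ev w p ≤ β * wcount F w) →
  (∀ m ∈ p.support, ∃ x, F x ∧ m = ix x) ∧ ∀ x, Y x → ix x ∈ p.support

/-- What generic rounding factors give: nothing cancels in a sum. -/
def Spec {K : Cls} {n s : ℕ} (D : Circ K n s) (Q : Fin s → Po n) : Prop :=
  ∀ v, match D v with
    | .inp i b => Q v = MvPolynomial.X (i, b)
    | .const c => Q v = MvPolynomial.C c
    | .lin _ _ a b _ _ => ∀ m ∈ (Q v).support,
      (m ∈ (Q a).support ∧ (Q a).support ⊆ (Q v).support) ∨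
      (m ∈ (Q b).support ∧ (Q b).support ⊆ (Q v).support)
    | .mul a b _ _ => (Q v).support = (Q a * Q b).support
    | .orc _ ψ _ c _ _ _ => (∀ y, ψ y → (∏ j, Q (c j (y j))).support ⊆ (Q v).support) ∧
      ∀ m ∈ (Q v).support, ∃ y, ψ y ∧ m ∈ (∏ j, Q (c j (y j))).support

/-- `A z` holds for generic `z`. -/
def Generically {s : ℕ} (A : (Fin s → ℕ → ℝ) → Prop) : Prop :=
  ∃ P : MvPolynomial (Fin s × ℕ) ℝ, P ≠ 0 ∧
    ∀ z : Fin s → ℕ → ℝ, MvPolynomial.eval (fun q => z q.1 q.2) P ≠ 0 → A z

/-- [Gen] generic rounding factors. PROOF. Let `S = MvPolynomial (Fin s × ℕ) ℝ` (variables `z v i`),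
`G v : MvPolynomial (Fin n × Bool) S` the values of the nodes (recursion), and `P` the product of
all `z v 0` and of all non-zero coefficients of all `G v`. `Q v = map (eval z) (G v)`; if
`P z ≠ 0` then `(Q v).support = (G v).support`. (a) If `v` is not an input or constant then the
substitution `z v 0 ↦ 0` kills `G v` and fixes `G t` for `t < v` and for inputs and constants. So
for `G u = z (A G a + B G b)`, `a ≠ b`, `A, B ≠ 0`, `a`, `b` not both inputs or constants, no
coefficient cancels: apply this substitution for the larger (or for the only) child which is not an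
input or constant; so `(G a).support ⊆ (G u).support`, same for `b`. Both inputs or constants: the
supports of `Q a`, `Q b` have at most one element. `a = b`, `A = 0`, `B = 0`: clear. (b) Oracle call:
if the coefficient of `m` in `G v` is zero but the one of some product over `y` in `ψ` is not, take
a minimal such `y` (for inclusion) and substitute `z v (j + 1) ↦ y j`: only the term of `y`
survives. -/
def St_Gen : Prop := ∀ (K : Cls) (n s : ℕ) (D : Circ K n s), Generically fun z =>
  ∃ Q : Fin s → Po n, (∀ w, IsRun D z w fun v => ev w (Q v)) ∧ Spec D Q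

/-- [Asm] from a circuit to a monotone reduction. PROOF. `v` is live if `Q v ≠ 0` and there
is `c` with `c + m ∈ (Q r).support` for all `m ∈ (Q v).support`. `R.val v w = ∑ m ∈ (Q v).support,
∏ q, w q.1 q.2 ^ m q` for live `v`, and `0` for the other `v`. Rules: a dead node is the gate with
`N = 0` and `ψ` empty. A live sum: `N = 1`, `ψ` = the children `x` with
`(Q x).support ⊆ (Q v).support` (they are live or have `Q x = 0`). A live product: `N = 2`, `ψ` = the
vector `(1, 1)`; a live oracle call: the same `ψ`, `c`. For `y` in `ψ` with all `Q (c j (y j)) ≠ 0`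
(else one of the values is `0`): by `St_Blk` all sums of monomials of the factors are in the
support of the product, so in `(Q v).support`; so all these nodes are live (context: `c` + the
monomials of the others); so `∑ m ∈ (Q v).support` is between `1 / K` and `1` times the sum over `y`
of the products. The root is live, and its value is between `wcount Y` and `wcount F`. -/
def St_Asm : Prop := ∀ K : Cls, (∀ (N : ℕ) (ψ : (Fin N → Bool) → Prop), SchUnion 0 ψ → K N ψ) →
  ∀ (n s : ℕ) (D : Circ K n s) (Q : Fin s → Po n) (r : Fin s)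
  (Y F : Pt n → Prop), Spec D Q → (∃ x, Y x) → (∀ m ∈ (Q r).support, ∃ x, F x ∧ m = ix x) →
  (∀ x, Y x → ix x ∈ (Q r).support) →
  ∃ R : RedK K n s, ∀ w : Fin n → Bool → ℝ, (∀ i b, 0 < w i b) →
    1 * wcount Y w ≤ R.val r w ∧ R.val r w ≤ 1 * wcount F w

/-- With rounding factors `z`, for all positive weights, the value of the node `r` is between a
positive constant times the weight of `Y` and a constant times the weight of `F`. -/
def Approx {K : Cls} {n s : ℕ} (D : Circ K n s) (z : Fin s → ℕ → ℝ) (r : Fin s)
    (Y F : (Fin n → Bool) → Prop) : Prop :=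
  ∃ α β : ℝ, 0 < α ∧ ∀ w : Fin n → Bool → ℝ, (∀ i b, 0 < w i b) → ∀ f : Fin s → ℝ,
    IsRun D z w f → α * wcount Y w ≤ f r ∧ f r ≤ β * wcount F w

/-- [Box] a nonzero polynomial is nonzero at some point close to `1`
(`MvPolynomial.funext_set`). -/
def St_Box : Prop := ∀ (s : ℕ) (A : (Fin s → ℕ → ℝ) → Prop), Generically A →
  ∀ η : ℝ, 0 < η → ∃ z : Fin s → ℕ → ℝ, (∀ v i, |z v i - 1| ≤ η) ∧ A z

/-- [FinF1] numerically stable algorithms for weighted `#k`-SAT, with Schaefer gates. PROOF. As
`SFR/Fin.lean`, with `St_Gen`, `St_Bnd`, `St_Asm` before `SFR.St_Sup`. -/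
def St_FinF1 : Prop := ∃ C : ℝ, ∀ k : ℕ, 2 ≤ k → ∃ n₀ : ℕ, ∀ n : ℕ, n₀ ≤ n →
  ∃ φ : CNF n, φ.length ≤ 2 ^ k * n ∧ (∀ cl ∈ φ, cl.length ≤ k) ∧
    (2 : ℝ) ^ ((1 - C * (Real.log k ^ 2 / k)) * n) ≤ Nat.card {x : Fin n → Bool // Sat φ x} ∧
    ∀ (m s : ℕ) (D : Circ (fun _ ψ => SchUnion m ψ) n s), Generically fun z =>
      ∀ (r : Fin s) (Y : (Fin n → Bool) → Prop), Approx D z r Y (Sat φ) →
      (Nat.card {x : Fin n → Bool // Y x} : ℝ) ≤
        (2 : ℝ) ^ (C * (Real.log k ^ 2 / k) * n) * (s * 2 ^ m)

/-- [FinF2] the same with permanents and determinants. PROOF. `SFP.St_FinP`, after `St_Gen`,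
`St_Bnd`, `St_Asm`. -/
def St_FinF2 : Prop := ∀ m : ℕ, ∃ φ : CNF (m * m), φ.length ≤ 3 * (m * m) ∧
  (∀ cl ∈ φ, cl.length ≤ 3) ∧ Nat.card {x : Fin (m * m) → Bool // Sat φ x} = 2 ^ m ∧
  ∀ (u q s : ℕ) (D : Circ (fun _ ψ => SchUnion u ψ ∨ HasLP q ψ) (m * m) s), Generically fun z =>
    ∀ (r : Fin s) (Y : (Fin (m * m) → Bool) → Prop), Approx D z r Y (Sat φ) →
    Nat.card {x : Fin (m * m) → Bool // Y x} ^ 2 ≤ 3 ^ m * (s * (s + q + (m + 1) * 2 ^ u))

end Pool.Agent.SFF
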