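import Pool.Agent.SFF.Defs

/-!
# SFF, module Fin: the final statements
-/

set_option autoImplicit false

namespace Pool.Agent.SFF

open Finset Pool.Agent.STH Pool.Agent.STD Pool.Agent.STS Pool.Agent.SFR Pool.Agent.SFP

/-- with generic rounding factors a circuit contains a monotone reduction -/
theorem Fin_red (h1 : St_Gen) (h2 : St_Bnd) (h3 : St_Asm) (K : Cls)
    (hK : ∀ (N : ℕ) (ψ : (Fin N → Bool) → Prop), SchUnion 0 ψ → K N ψ) (n s : ℕ)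
    (D : Circ K n s) : Generically fun z => ∀ (r : Fin s) (Y F : (Fin n → Bool) → Prop),
      (∃ x, Y x) → Approx D z r Y F →
      ∃ R : RedK K n s, ∀ w : Fin n → Bool → ℝ, (∀ i b, 0 < w i b) →
        1 * wcount Y w ≤ R.val r w ∧ R.val r w ≤ 1 * wcount F w := by
  obtain ⟨P, hP, h⟩ := h1 K n s D
  refine ⟨P, hP, fun z hz r Y F hY hA => ?_⟩
  obtain ⟨Q, hQ, hS⟩ := h z hz
  obtain ⟨α, β, hα, hA⟩ := hA
  obtain ⟨h4, h5⟩ := h2 n (Q r) Y F α β hα fun w hw => hA w hw _ (hQ w)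
  exact h3 K hK n s D Q r Y F hS hY h4 h5

/-- `2 ^ 0 ≤ 2 ^ m` -/
theorem Fin_sch {N : ℕ} (m : ℕ) {ψ : (Fin N → Bool) → Prop} (h : SchUnion 0 ψ) :
    SchUnion m ψ := by
  obtain ⟨A, hA, hψ⟩ := h
  refine ⟨fun _ => A ⟨0, by simp⟩, fun _ => hA _, fun y => ?_⟩
  rw [hψ]
  constructor
  · rintro ⟨l, hl⟩
    have : l = ⟨0, by simp⟩ := by
      apply Fin.ext
      have := l.2
      simp only [pow_zero] at this
      simp only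
      omega
    rw [this] at hl
    exact ⟨⟨0, by positivity⟩, hl⟩
  · rintro ⟨_, hl⟩
    exact ⟨_, hl⟩

/-- [FinF1] -/
theorem thm_FinF1 (h1 : St_Gen) (h2 : St_Bnd) (h3 : St_Asm) (h4 : SFR.St_Fin) : St_FinF1 := by
  obtain ⟨C, h⟩ := h4
  refine ⟨C, fun k hk => ?_⟩
  obtain ⟨n₀, h⟩ := h k hk
  refine ⟨n₀, fun n hn => ?_⟩
  obtain ⟨φ, hφ1, hφ2, hφ3, h⟩ := h n hn
  refine ⟨φ, hφ1, hφ2, hφ3, fun m s D => ?_⟩
  obtain ⟨P, hP, hred⟩ := Fin_red h1 h2 h3 (fun _ ψ => SchUnion m ψ) (fun _ _ => Fin_sch m) n s D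
  refine ⟨P, hP, fun z hz r Y hA => ?_⟩
  rcases isEmpty_or_nonempty {x : Fin n → Bool // Y x} with hY | hY
  · rw [Nat.card_of_isEmpty]
    simp only [Nat.cast_zero]
    positivity
  obtain ⟨⟨x₁, hx₁⟩⟩ := hY
  obtain ⟨R, hR⟩ := hred z hz r Y (Sat φ) ⟨x₁, hx₁⟩ hA
  exact h m s ⟨R.val, R.ok⟩ r Y 1 1 one_pos hR

/-- [FinF2] -/
theorem thm_FinF2 (h1 : St_Gen) (h2 : St_Bnd) (h3 : St_Asm) (h4 : St_FinP) : St_FinF2 := by
  intro m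
  obtain ⟨φ, hφ1, hφ2, hφ3, h⟩ := h4 m
  refine ⟨φ, hφ1, hφ2, hφ3, fun u q s D => ?_⟩
  obtain ⟨P, hP, hred⟩ := Fin_red h1 h2 h3 (fun _ ψ => SchUnion u ψ ∨ HasLP q ψ)
    (fun _ _ h => Or.inl (Fin_sch u h)) (m * m) s D
  refine ⟨P, hP, fun z hz r Y hA => ?_⟩
  rcases isEmpty_or_nonempty {x : Fin (m * m) → Bool // Y x} with hY | hY
  · rw [Nat.card_of_isEmpty]
    exact Nat.zero_le _
  obtain ⟨⟨x₁, hx₁⟩⟩ := hY
  obtain ⟨R, hR⟩ := hred z hz r Y (Sat φ) ⟨x₁, hx₁⟩ hA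
  exact h u q s R r Y 1 1 one_pos hR

end Pool.Agent.SFF
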