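import Pool.Agent.SFF.Defs

/-!
# SFF, module Gen: generic rounding factors
-/

set_option autoImplicit false

namespace Pool.Agent.SFF

open Finset Pool.Agent.STH Pool.Agent.STD Pool.Agent.STS Pool.Agent.SFR Pool.Agent.SFP

section gen

variable {K : Cls} {n s : ℕ}

/-! ### values over an algebra -/

open Classical in
/-- the value of a gate over an algebra -/
noncomputable def gn_gv {R : Type} [CommRing R] [Algebra ℝ R] {v : Fin s} (g : Gate K n s v)
    (z : ℕ → R) (w : Fin n → Bool → R) (f : Fin s → R) : R :=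
  match g with
  | .inp i b => w i b
  | .const c => algebraMap ℝ R c
  | .lin A B a b _ _ => z 0 * (algebraMap ℝ R A * f a + algebraMap ℝ R B * f b)
  | .mul a b _ _ => z 0 * (f a * f b)
  | .orc _ ψ κ c _ _ _ => z 0 * ∑ y, if ψ y then
      algebraMap ℝ R (κ y) * ∏ j, (if y j then z (j + 1) else 1) * f (c j (y j)) else 0

theorem gn_congr {R : Type} [CommRing R] [Algebra ℝ R] {v : Fin s} (g : Gate K n s v)
    (z : ℕ → R) (w : Fin n → Bool → R) (f f' : Fin s → R) (h : ∀ t, t < v → f t = f' t) :
    gn_gv g z w f = gn_gv g z w f' := by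
  cases g with
  | inp i b => rfl
  | const c => rfl
  | lin A B a b ha hb => simp only [gn_gv, h a ha, h b hb]
  | mul a b ha hb => simp only [gn_gv, h a ha, h b hb]
  | orc N ψ κ c hψ hκ hc => simp only [gn_gv, h _ (hc _ _)]

theorem gn_map {R R' : Type} [CommRing R] [Algebra ℝ R] [CommRing R'] [Algebra ℝ R']
    (σ : R →ₐ[ℝ] R') {v : Fin s} (g : Gate K n s v) (z : ℕ → R) (w : Fin n → Bool → R)
    (f : Fin s → R) : σ (gn_gv g z w f) =
      gn_gv g (fun i => σ (z i)) (fun i b => σ (w i b)) (fun t => σ (f t)) := by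
  cases g with
  | inp i b => rfl
  | const c => exact σ.commutes c
  | lin A B a b ha hb => simp only [gn_gv, map_mul, map_add, AlgHom.commutes]
  | mul a b ha hb => simp only [gn_gv, map_mul]
  | orc N ψ κ c hψ hκ hc =>
    simp only [gn_gv, map_mul, map_sum, apply_ite σ, map_prod, map_zero, map_one,
      AlgHom.commutes]

/-- the values of a circuit over an algebra -/
noncomputable def gn_run {R : Type} [CommRing R] [Algebra ℝ R] (D : Circ K n s)
    (z : Fin s → ℕ → R) (w : Fin n → Bool → R) (v : Fin s) : R :=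
  gn_gv (D v) (z v) w (fun t => if _h : t < v then gn_run D z w t else 0)
termination_by v.1
decreasing_by exact _h

theorem gn_run_eq {R : Type} [CommRing R] [Algebra ℝ R] (D : Circ K n s)
    (z : Fin s → ℕ → R) (w : Fin n → Bool → R) (v : Fin s) :
    gn_run D z w v = gn_gv (D v) (z v) w (gn_run D z w) := by
  rw [gn_run]
  refine gn_congr _ _ _ _ _ fun t ht => ?_
  rw [dif_pos ht]

theorem gn_run_loc {R : Type} [CommRing R] [Algebra ℝ R] (D : Circ K n s)
    (z z' : Fin s → ℕ → R) (w : Fin n → Bool → R) (k : ℕ) : ∀ v : Fin s, v.1 = k →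
    (∀ u, u ≤ v → z u = z' u) → gn_run D z w v = gn_run D z' w v := by
  induction k using Nat.strong_induction_on with
  | _ k ih =>
    intro v hv h
    rw [gn_run_eq, gn_run_eq D z', h v le_rfl]
    refine gn_congr _ _ _ _ _ fun t ht => ?_
    exact ih t.1 (by rw [← hv]; exact ht) t rfl fun u hu => h u (hu.trans ht.le)

theorem gn_run_map {R R' : Type} [CommRing R] [Algebra ℝ R] [CommRing R'] [Algebra ℝ R']
    (σ : R →ₐ[ℝ] R') (D : Circ K n s) (z : Fin s → ℕ → R) (w : Fin n → Bool → R) (k : ℕ) :
    ∀ v : Fin s, v.1 = k → σ (gn_run D z w v) =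
      gn_run D (fun u i => σ (z u i)) (fun i b => σ (w i b)) v := by
  induction k using Nat.strong_induction_on with
  | _ k ih =>
    intro v hv
    rw [gn_run_eq, gn_run_eq D (fun u i => σ (z u i)), gn_map]
    refine gn_congr _ _ _ _ _ fun t ht => ?_
    exact ih t.1 (by rw [← hv]; exact ht) t rfl

/-! ### the generic values -/

/-- polynomials in the rounding factors -/
abbrev GnS (s : ℕ) := MvPolynomial (Fin s × ℕ) ℝ

/-- the rounding factors -/
noncomputable def gnz (n : ℕ) {s : ℕ} (u : Fin s) (i : ℕ) :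
    MvPolynomial (Fin n × Bool) (GnS s) :=
  MvPolynomial.C (MvPolynomial.X (u, i))

/-- the weights -/
noncomputable def gnw (s : ℕ) {n : ℕ} (i : Fin n) (b : Bool) :
    MvPolynomial (Fin n × Bool) (GnS s) :=
  MvPolynomial.X (i, b)

/-- the generic values -/
noncomputable def gnG (D : Circ K n s) : Fin s → MvPolynomial (Fin n × Bool) (GnS s) :=
  gn_run D (gnz n) (gnw s)

theorem gnG_eq (D : Circ K n s) (v : Fin s) :
    gnG D v = gn_gv (D v) (gnz n v) (gnw s) (gnG D) := gn_run_eq D _ _ v

theorem gn_coeff {T T' : Type} [CommRing T] [Algebra ℝ T] [CommRing T'] [Algebra ℝ T']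
    (σ : T →ₐ[ℝ] T') (p : MvPolynomial (Fin n × Bool) T) (m : Mo n) :
    MvPolynomial.coeff m (MvPolynomial.mapAlgHom σ p) = σ (MvPolynomial.coeff m p) :=
  MvPolynomial.coeff_map (σ : T →+* T') p m

theorem gn_mapC {T T' : Type} [CommRing T] [Algebra ℝ T] [CommRing T'] [Algebra ℝ T']
    (σ : T →ₐ[ℝ] T') (t : T) :
    MvPolynomial.mapAlgHom σ (MvPolynomial.C t : MvPolynomial (Fin n × Bool) T) =
      MvPolynomial.C (σ t) :=
  MvPolynomial.map_C (σ : T →+* T') t

theorem gn_mapX {T T' : Type} [CommRing T] [Algebra ℝ T] [CommRing T'] [Algebra ℝ T']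
    (σ : T →ₐ[ℝ] T') (q : Fin n × Bool) :
    MvPolynomial.mapAlgHom σ (MvPolynomial.X q : MvPolynomial (Fin n × Bool) T) =
      MvPolynomial.X q :=
  MvPolynomial.map_X (σ : T →+* T') q

/-- the coefficients of `G v` only involve the rounding factors of the nodes `≤ v` -/
theorem gn_fix (D : Circ K n s) (σ : GnS s →ₐ[ℝ] GnS s) (v : Fin s)
    (h : ∀ u i, u ≤ v → σ (MvPolynomial.X (u, i)) = MvPolynomial.X (u, i)) :
    MvPolynomial.mapAlgHom σ (gnG D v) = gnG D v := by
  unfold gnG
  rw [gn_run_map _ D _ _ v.1 v rfl]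
  have h1 : (fun (i : Fin n) (b : Bool) => MvPolynomial.mapAlgHom σ (gnw s i b)) = gnw s := by
    funext i b
    exact gn_mapX σ _
  rw [h1]
  refine gn_run_loc D _ _ _ v.1 v rfl fun u hu => ?_
  funext i
  show MvPolynomial.mapAlgHom σ (gnz n u i) = gnz n u i
  unfold gnz
  rw [gn_mapC, h u i hu]

/-- operations -/
def GnOp {v : Fin s} (g : Gate K n s v) : Prop :=
  match g with
  | .inp _ _ => False
  | .const _ => False
  | _ => True

/-- inputs and constants -/
theorem gn_fix' (D : Circ K n s) (σ : GnS s →ₐ[ℝ] GnS s) (v : Fin s) (h : ¬ GnOp (D v)) :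
    MvPolynomial.mapAlgHom σ (gnG D v) = gnG D v := by
  rw [gnG_eq]
  revert h
  generalize D v = g
  intro h
  cases g with
  | inp i b => exact gn_mapX σ _
  | const c => exact AlgHom.commutes _ c
  | lin A B a b ha hb => exact absurd trivial h
  | mul a b ha hb => exact absurd trivial h
  | orc N ψ κ c hψ hκ hc => exact absurd trivial h

/-- killing an operation -/
theorem gn_kill (D : Circ K n s) (σ : GnS s →ₐ[ℝ] GnS s) (v : Fin s) (h : GnOp (D v))
    (h0 : σ (MvPolynomial.X (v, 0)) = 0) : MvPolynomial.mapAlgHom σ (gnG D v) = 0 := by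
  have h1 : ∃ p, gnG D v = gnz n v 0 * p := by
    rw [gnG_eq]
    revert h
    generalize D v = g
    intro h
    cases g with
    | inp i b => exact absurd h (fun h2 => h2)
    | const c => exact absurd h (fun h2 => h2)
    | lin A B a b ha hb => exact ⟨_, rfl⟩
    | mul a b ha hb => exact ⟨_, rfl⟩
    | orc N ψ κ c hψ hκ hc => exact ⟨_, rfl⟩
  obtain ⟨p, hp⟩ := h1
  rw [hp, map_mul]
  unfold gnz
  rw [gn_mapC, h0, MvPolynomial.C_0, zero_mul]

/-- no cancellation with the last operation -/
theorem gn_can (D : Circ K n s) (u t : Fin s) (hu : GnOp (D u)) (ht : t < u ∨ ¬ GnOp (D t))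
    (α β : ℝ) (hα : α ≠ 0) (hβ : β ≠ 0) (m : Mo n)
    (h : algebraMap ℝ (GnS s) α * MvPolynomial.coeff m (gnG D u) +
      algebraMap ℝ (GnS s) β * MvPolynomial.coeff m (gnG D t) = 0) :
    MvPolynomial.coeff m (gnG D u) = 0 ∧ MvPolynomial.coeff m (gnG D t) = 0 := by
  classical
  let σ : GnS s →ₐ[ℝ] GnS s :=
    MvPolynomial.aeval (fun q => if q = (u, 0) then 0 else MvPolynomial.X q)
  have hσ0 : σ (MvPolynomial.X (u, 0)) = 0 := by
    show MvPolynomial.aeval _ (MvPolynomial.X (u, 0)) = _
    rw [MvPolynomial.aeval_X, if_pos rfl]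
  have hσ1 : ∀ q, q ≠ (u, 0) → σ (MvPolynomial.X q) = MvPolynomial.X q := by
    intro q hq
    show MvPolynomial.aeval _ (MvPolynomial.X q) = _
    rw [MvPolynomial.aeval_X, if_neg hq]
  have h1 : σ (MvPolynomial.coeff m (gnG D u)) = 0 := by
    rw [← gn_coeff, gn_kill D σ u hu hσ0, MvPolynomial.coeff_zero]
  have h2 : σ (MvPolynomial.coeff m (gnG D t)) = MvPolynomial.coeff m (gnG D t) := by
    rw [← gn_coeff]
    rcases ht with ht | ht
    · rw [gn_fix D σ t]
      intro u' i hu'
      refine hσ1 _ fun h3 => ?_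
      have h4 : u' = u := congrArg Prod.fst h3
      rw [h4] at hu'
      exact absurd ht (not_lt_of_ge hu')
    · rw [gn_fix' D σ t ht]
  have hne : ∀ γ : ℝ, γ ≠ 0 → algebraMap ℝ (GnS s) γ ≠ 0 := by
    intro γ hγ h3
    exact hγ ((map_eq_zero_iff _ (MvPolynomial.C_injective _ _)).1 h3)
  have h3 := congrArg σ h
  rw [map_add, map_mul, map_mul, h1, h2, mul_zero, zero_add, map_zero, AlgHom.commutes] at h3
  have h4 : MvPolynomial.coeff m (gnG D t) = 0 :=
    (mul_eq_zero.1 h3).resolve_left (hne β hβ)
  rw [h4, mul_zero, add_zero] at h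
  exact ⟨(mul_eq_zero.1 h).resolve_left (hne α hα), h4⟩

/-! ### coefficients -/

theorem gn_coeff_lin {T : Type} [CommRing T] [Algebra ℝ T] (ζ : T) (A B : ℝ)
    (p q : MvPolynomial (Fin n × Bool) T) (m : Mo n) :
    MvPolynomial.coeff m (MvPolynomial.C ζ * (algebraMap ℝ (MvPolynomial (Fin n × Bool) T) A * p +
      algebraMap ℝ (MvPolynomial (Fin n × Bool) T) B * q)) =
      ζ * (algebraMap ℝ T A * MvPolynomial.coeff m p +
        algebraMap ℝ T B * MvPolynomial.coeff m q) := by
  rw [MvPolynomial.coeff_C_mul, MvPolynomial.coeff_add, MvPolynomial.algebraMap_apply,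
    MvPolynomial.algebraMap_apply, MvPolynomial.coeff_C_mul, MvPolynomial.coeff_C_mul]

open Classical in
theorem gn_coeff_orc {T : Type} [CommRing T] [Algebra ℝ T] (ζ : ℕ → T) {N : ℕ}
    (ψ : (Fin N → Bool) → Prop) (κ : (Fin N → Bool) → ℝ)
    (F : Fin N → Bool → MvPolynomial (Fin n × Bool) T) (m : Mo n) :
    MvPolynomial.coeff m (MvPolynomial.C (ζ 0) * ∑ y, if ψ y then
      algebraMap ℝ (MvPolynomial (Fin n × Bool) T) (κ y) *
        ∏ j, (if y j then MvPolynomial.C (ζ (j + 1)) else 1) * F j (y j) else 0) =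
      ζ 0 * ∑ y, if ψ y then algebraMap ℝ T (κ y) * ((∏ j : Fin N, if y j then ζ (j + 1) else 1) *
        MvPolynomial.coeff m (∏ j, F j (y j))) else 0 := by
  rw [MvPolynomial.coeff_C_mul, MvPolynomial.coeff_sum]
  congr 1
  refine Finset.sum_congr rfl fun y _ => ?_
  by_cases hy : ψ y
  · rw [if_pos hy, if_pos hy, Finset.prod_mul_distrib, MvPolynomial.algebraMap_apply,
      MvPolynomial.coeff_C_mul]
    have h1 : (∏ j : Fin N, if y j then (MvPolynomial.C (ζ (j + 1)) :
        MvPolynomial (Fin n × Bool) T) else 1) =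
        MvPolynomial.C (∏ j : Fin N, if y j then ζ (j + 1) else 1) := by
      rw [map_prod]
      refine Finset.prod_congr rfl fun j _ => ?_
      split_ifs
      · rfl
      · exact MvPolynomial.C_1.symm
    rw [h1, MvPolynomial.coeff_C_mul]
  · rw [if_neg hy, if_neg hy, MvPolynomial.coeff_zero]

open Classical in
/-- no cancellation at an oracle call -/
theorem gn_can_orc (D : Circ K n s) (v : Fin s) {N : ℕ} (ψ : (Fin N → Bool) → Prop)
    (κ : (Fin N → Bool) → ℝ) (c : Fin N → Bool → Fin s) (hκ : ∀ y, ψ y → κ y ≠ 0)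
    (hc : ∀ j b, c j b < v) (m : Mo n)
    (h : (∑ y, if ψ y then algebraMap ℝ (GnS s) (κ y) *
      ((∏ j : Fin N, if y j then (MvPolynomial.X (v, (j : ℕ) + 1) : GnS s) else 1) *
        MvPolynomial.coeff m (∏ j, gnG D (c j (y j)))) else 0) = 0) (y : Fin N → Bool)
    (hy : ψ y) : MvPolynomial.coeff m (∏ j, gnG D (c j (y j))) = 0 := by
  induction y using WellFoundedLT.induction with
  | _ y ih =>
    let σ : GnS s →ₐ[ℝ] GnS s := MvPolynomial.aeval (fun q => if q.1 = v then
      (if hj : q.2 - 1 < N then (if y ⟨q.2 - 1, hj⟩ then 1 else 0) else 0) else MvPolynomial.X q)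
    have hσ0 : ∀ j : Fin N, σ (MvPolynomial.X (v, (j : ℕ) + 1)) = if y j then 1 else 0 := by
      intro j
      show MvPolynomial.aeval _ (MvPolynomial.X (v, (j : ℕ) + 1)) = _
      rw [MvPolynomial.aeval_X, if_pos rfl]
      have h1 : (v, (j : ℕ) + 1).2 - 1 < N := j.2
      rw [dif_pos h1]
      rfl
    have hσ1 : ∀ u i, u < v → σ (MvPolynomial.X (u, i)) = MvPolynomial.X (u, i) := by
      intro u i hu
      show MvPolynomial.aeval _ (MvPolynomial.X (u, i)) = _
      rw [MvPolynomial.aeval_X, if_neg hu.ne]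
    have h1 : ∀ y' : Fin N → Bool, σ (MvPolynomial.coeff m (∏ j, gnG D (c j (y' j)))) =
        MvPolynomial.coeff m (∏ j, gnG D (c j (y' j))) := by
      intro y'
      rw [← gn_coeff, map_prod]
      congr 1
      refine Finset.prod_congr rfl fun j _ => ?_
      exact gn_fix D σ _ fun u i hu => hσ1 u i (hu.trans_lt (hc j _))
    have h2 : ∀ y' : Fin N → Bool, σ (∏ j : Fin N,
        if y' j then (MvPolynomial.X (v, (j : ℕ) + 1) : GnS s) else 1) =
        if y' ≤ y then 1 else 0 := by
      intro y'
      rw [map_prod]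
      have h3 : ∀ j : Fin N, σ (if y' j then (MvPolynomial.X (v, (j : ℕ) + 1) : GnS s) else 1) =
          if y' j ≤ y j then 1 else 0 := by
        intro j
        by_cases hj : y' j = true
        · rw [if_pos hj, hσ0, hj]
          by_cases hj' : y j = true
          · rw [if_pos hj', hj', if_pos le_rfl]
          · rw [if_neg hj', if_neg]
            intro h4
            exact hj' (top_le_iff.1 h4)
        · rw [if_neg hj, map_one, if_pos]
          rw [Bool.eq_false_iff.2 hj]
          exact bot_le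
      rw [Finset.prod_congr rfl fun j _ => h3 j]
      by_cases h4 : y' ≤ y
      · rw [if_pos h4]
        exact Finset.prod_eq_one fun j _ => if_pos (h4 j)
      · rw [if_neg h4]
        rw [Pi.le_def] at h4
        push Not at h4
        obtain ⟨j, hj⟩ := h4
        exact Finset.prod_eq_zero (Finset.mem_univ j) (if_neg (not_le_of_gt hj))
    have h3 := congrArg σ h
    rw [map_sum, map_zero] at h3
    rw [Finset.sum_eq_single y] at h3
    · rw [if_pos hy, map_mul, map_mul, h1, h2, if_pos le_rfl, one_mul, AlgHom.commutes] at h3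
      refine (mul_eq_zero.1 h3).resolve_left fun h4 => ?_
      exact hκ y hy ((map_eq_zero_iff _ (MvPolynomial.C_injective _ _)).1 h4)
    · intro y' _ hne
      by_cases hy' : ψ y'
      · rw [if_pos hy', map_mul, map_mul, h1, h2]
        by_cases hle : y' ≤ y
        · rw [ih y' (lt_of_le_of_ne hle hne) hy', mul_zero, mul_zero]
        · rw [if_neg hle, zero_mul, mul_zero]
      · rw [if_neg hy', map_zero]
    · intro h4
      exact absurd (Finset.mem_univ y) h4

theorem gn_sub {v : Fin s} (g : Gate K n s v) (hg : ¬ GnOp g) (z : ℕ → Po n)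
    (f : Fin s → Po n) (m m' : Mo n)
    (hm : MvPolynomial.coeff m (gn_gv g z (fun i b => MvPolynomial.X (i, b)) f) ≠ 0)
    (hm' : MvPolynomial.coeff m' (gn_gv g z (fun i b => MvPolynomial.X (i, b)) f) ≠ 0) :
    m = m' := by
  classical
  cases g with
  | inp i b =>
    simp only [gn_gv, MvPolynomial.coeff_X, ne_eq, ite_eq_right_iff, one_ne_zero, imp_false,
      not_not] at hm hm'
    rw [← hm, ← hm']
  | const c =>
    simp only [gn_gv, MvPolynomial.algebraMap_eq, MvPolynomial.coeff_C, ne_eq,
      ite_eq_right_iff, Classical.not_imp] at hm hm'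
    rw [← hm.1, ← hm'.1]
  | lin A B a b ha hb => exact absurd trivial hg
  | mul a b ha hb => exact absurd trivial hg
  | orc N ψ κ c hψ hκ hc => exact absurd trivial hg

end gen

theorem thm_Gen : St_Gen := by
  classical
  intro K n s D
  refine ⟨(∏ v : Fin s, MvPolynomial.X (v, 0)) * ∏ v : Fin s, ∏ m ∈ (gnG D v).support,
    MvPolynomial.coeff m (gnG D v), ?_, fun z hz => ?_⟩
  · refine mul_ne_zero (Finset.prod_ne_zero_iff.2 fun v _ => MvPolynomial.X_ne_zero _)
      (Finset.prod_ne_zero_iff.2 fun v _ => Finset.prod_ne_zero_iff.2 fun m hm => ?_)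
    exact MvPolynomial.mem_support_iff.1 hm
  let φ : GnS s →ₐ[ℝ] ℝ := MvPolynomial.aeval (fun q => z q.1 q.2)
  have hφ : ∀ p, φ p = MvPolynomial.eval (fun q => z q.1 q.2) p := fun p => by
    show MvPolynomial.aeval _ p = _
    rw [MvPolynomial.aeval_eq_eval]
  rw [← hφ, map_mul, map_prod, map_prod] at hz
  have hz1 : ∀ v : Fin s, z v 0 ≠ 0 := by
    intro v
    have h1 := Finset.prod_ne_zero_iff.1 (left_ne_zero_of_mul hz) v (Finset.mem_univ v)
    have h2 : φ (MvPolynomial.X (v, 0)) = z v 0 := MvPolynomial.aeval_X _ _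
    rwa [h2] at h1
  have hz2 : ∀ (v : Fin s) (m : Mo n), MvPolynomial.coeff m (gnG D v) ≠ 0 →
      φ (MvPolynomial.coeff m (gnG D v)) ≠ 0 := by
    intro v m hm
    have h1 := Finset.prod_ne_zero_iff.1 (right_ne_zero_of_mul hz) v (Finset.mem_univ v)
    rw [map_prod] at h1
    exact Finset.prod_ne_zero_iff.1 h1 m (MvPolynomial.mem_support_iff.2 hm)
  obtain ⟨Q, hQ⟩ : ∃ Q : Fin s → Po n, Q = fun v => MvPolynomial.mapAlgHom φ (gnG D v) := ⟨_, rfl⟩
  have hQc : ∀ v m, MvPolynomial.coeff m (Q v) = φ (MvPolynomial.coeff m (gnG D v)) := by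
    intro v m
    rw [hQ]
    exact gn_coeff φ _ m
  have hQ0 : ∀ v m, MvPolynomial.coeff m (gnG D v) = 0 ↔ MvPolynomial.coeff m (Q v) = 0 := by
    intro v m
    rw [hQc]
    constructor
    · intro h
      rw [h, map_zero]
    · intro h
      by_contra h1
      exact hz2 v m h1 h
  have hQe : ∀ v, Q v = gn_gv (D v) (fun i => MvPolynomial.C (z v i))
      (fun i b => MvPolynomial.X (i, b)) Q := by
    intro v
    have h1 : Q v = MvPolynomial.mapAlgHom φ (gnG D v) := by rw [hQ]
    rw [h1, gnG_eq, gn_map, hQ]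
    congr 1
    · funext i
      unfold gnz
      rw [gn_mapC]
      congr 1
      exact MvPolynomial.aeval_X _ _
    · funext i b
      exact gn_mapX φ _
  refine ⟨Q, fun w v => ?_, fun v => ?_⟩
  · have h1 := congrArg (MvPolynomial.aeval (fun q : Fin n × Bool => w q.1 q.2) :
      Po n →ₐ[ℝ] ℝ) (hQe v)
    rw [gn_map] at h1
    have h2 : ∀ p : Po n, (MvPolynomial.aeval (fun q : Fin n × Bool => w q.1 q.2) :
        Po n →ₐ[ℝ] ℝ) p = ev w p := by
      intro p
      rw [MvPolynomial.aeval_eq_eval]
      rfl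
    have h3 : ∀ i, (MvPolynomial.aeval (fun q : Fin n × Bool => w q.1 q.2) :
        Po n →ₐ[ℝ] ℝ) (MvPolynomial.C (z v i)) = z v i := fun i => MvPolynomial.aeval_C _ _
    have h4 : ∀ i b, (MvPolynomial.aeval (fun q : Fin n × Bool => w q.1 q.2) :
        Po n →ₐ[ℝ] ℝ) (MvPolynomial.X (i, b)) = w i b := fun i b => MvPolynomial.aeval_X _ _
    simp only [h3, h4, h2] at h1
    revert h1
    generalize D v = g
    intro h1
    cases g with
    | inp i b => exact h1
    | const c => exact h1
    | lin A B a b ha hb => exact h1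
    | mul a b ha hb => exact h1
    | orc N ψ κ c hψ hκ hc => exact h1
  · have hG := gnG_eq D v
    have hq := hQe v
    rcases hD : D v with ⟨i, b⟩ | ⟨c⟩ | ⟨A, B, a, b, ha, hb⟩ | ⟨a, b, ha, hb⟩ |
      ⟨N, ψ, κ, c, hψ, hκ, hc⟩
    · rw [hD] at hq
      exact hq
    · rw [hD] at hq
      exact hq
    · rw [hD] at hG hq
      have hcG : ∀ m, MvPolynomial.coeff m (gnG D v) = MvPolynomial.X (v, 0) *
          (algebraMap ℝ (GnS s) A * MvPolynomial.coeff m (gnG D a) +
            algebraMap ℝ (GnS s) B * MvPolynomial.coeff m (gnG D b)) := by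
        intro m
        rw [hG]
        exact gn_coeff_lin _ A B _ _ m
      have hcQ : ∀ m, MvPolynomial.coeff m (Q v) = z v 0 *
          (A * MvPolynomial.coeff m (Q a) + B * MvPolynomial.coeff m (Q b)) := by
        intro m
        have h1 := congrArg (MvPolynomial.coeff m) hq
        exact h1.trans (gn_coeff_lin _ A B _ _ m)
      intro m hm
      rw [MvPolynomial.mem_support_iff] at hm
      by_cases hA : A = 0
      · right
        subst hA
        simp only [zero_mul, zero_add] at hcQ
        rw [hcQ] at hm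
        have hB : B ≠ 0 := left_ne_zero_of_mul (right_ne_zero_of_mul hm)
        refine ⟨MvPolynomial.mem_support_iff.2 (right_ne_zero_of_mul (right_ne_zero_of_mul hm)),
          fun m' hm' => ?_⟩
        rw [MvPolynomial.mem_support_iff] at hm' ⊢
        rw [hcQ]
        exact mul_ne_zero (hz1 v) (mul_ne_zero hB hm')
      by_cases hB : B = 0
      · left
        subst hB
        simp only [zero_mul, add_zero] at hcQ
        rw [hcQ] at hm
        refine ⟨MvPolynomial.mem_support_iff.2 (right_ne_zero_of_mul (right_ne_zero_of_mul hm)),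
          fun m' hm' => ?_⟩
        rw [MvPolynomial.mem_support_iff] at hm' ⊢
        rw [hcQ]
        exact mul_ne_zero (hz1 v) (mul_ne_zero hA hm')
      by_cases hab : a = b
      · left
        subst hab
        have hcQ' : ∀ m, MvPolynomial.coeff m (Q v) = z v 0 *
            ((A + B) * MvPolynomial.coeff m (Q a)) := by
          intro m
          rw [hcQ, add_mul]
        rw [hcQ'] at hm
        have hAB : A + B ≠ 0 := left_ne_zero_of_mul (right_ne_zero_of_mul hm)
        refine ⟨MvPolynomial.mem_support_iff.2 (right_ne_zero_of_mul (right_ne_zero_of_mul hm)),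
          fun m' hm' => ?_⟩
        rw [MvPolynomial.mem_support_iff] at hm' ⊢
        rw [hcQ']
        exact mul_ne_zero (hz1 v) (mul_ne_zero hAB hm')
      have hor : MvPolynomial.coeff m (Q a) ≠ 0 ∨ MvPolynomial.coeff m (Q b) ≠ 0 := by
        by_contra hcon
        rw [not_or, not_ne_iff, not_ne_iff] at hcon
        apply hm
        rw [hcQ, hcon.1, hcon.2, mul_zero, mul_zero, add_zero, mul_zero]
      by_cases hop : GnOp (D a) ∨ GnOp (D b)
      · have key : ∀ m, algebraMap ℝ (GnS s) A * MvPolynomial.coeff m (gnG D a) +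
            algebraMap ℝ (GnS s) B * MvPolynomial.coeff m (gnG D b) = 0 →
            MvPolynomial.coeff m (gnG D a) = 0 ∧ MvPolynomial.coeff m (gnG D b) = 0 := by
          intro m h
          have h' : algebraMap ℝ (GnS s) B * MvPolynomial.coeff m (gnG D b) +
            algebraMap ℝ (GnS s) A * MvPolynomial.coeff m (gnG D a) = 0 := by
            rw [add_comm]
            exact h
          by_cases h1 : GnOp (D a) ∧ (b < a ∨ ¬ GnOp (D b))
          · exact gn_can D a b h1.1 h1.2 A B hA hB m h
          · have h2 : GnOp (D b) ∧ (a < b ∨ ¬ GnOp (D a)) := by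
              by_cases h3 : GnOp (D a)
              · have h4 : ¬ (b < a ∨ ¬ GnOp (D b)) := fun h5 => h1 ⟨h3, h5⟩
                rw [not_or, not_not] at h4
                exact ⟨h4.2, Or.inl (lt_of_le_of_ne (not_lt.1 h4.1) hab)⟩
              · exact ⟨hop.resolve_left h3, Or.inr h3⟩
            exact (gn_can D b a h2.1 h2.2 B A hB hA m h').symm
        have hsa : (Q a).support ⊆ (Q v).support := by
          intro m' hm'
          rw [MvPolynomial.mem_support_iff] at hm' ⊢
          intro h1
          rw [← hQ0, hcG] at h1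
          have h2 := key m' ((mul_eq_zero.1 h1).resolve_left (MvPolynomial.X_ne_zero _))
          exact hm' ((hQ0 a m').1 h2.1)
        have hsb : (Q b).support ⊆ (Q v).support := by
          intro m' hm'
          rw [MvPolynomial.mem_support_iff] at hm' ⊢
          intro h1
          rw [← hQ0, hcG] at h1
          have h2 := key m' ((mul_eq_zero.1 h1).resolve_left (MvPolynomial.X_ne_zero _))
          exact hm' ((hQ0 b m').1 h2.2)
        rcases hor with h1 | h1
        · exact Or.inl ⟨MvPolynomial.mem_support_iff.2 h1, hsa⟩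
        · exact Or.inr ⟨MvPolynomial.mem_support_iff.2 h1, hsb⟩
      · rw [not_or] at hop
        rcases hor with h1 | h1
        · refine Or.inl ⟨MvPolynomial.mem_support_iff.2 h1, fun m' hm' => ?_⟩
          rw [MvPolynomial.mem_support_iff] at hm' ⊢
          have h2 := gn_sub (D a) hop.1 (fun i => MvPolynomial.C (z a i)) Q m m'
            (by rw [← hQe a]; exact h1) (by rw [← hQe a]; exact hm')
          rw [← h2]
          exact hm
        · refine Or.inr ⟨MvPolynomial.mem_support_iff.2 h1, fun m' hm' => ?_⟩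
          rw [MvPolynomial.mem_support_iff] at hm' ⊢
          have h2 := gn_sub (D b) hop.2 (fun i => MvPolynomial.C (z b i)) Q m m'
            (by rw [← hQe b]; exact h1) (by rw [← hQe b]; exact hm')
          rw [← h2]
          exact hm
    · rw [hD] at hq
      show (Q v).support = (Q a * Q b).support
      have hq' : Q v = MvPolynomial.C (z v 0) * (Q a * Q b) := hq
      rw [hq']
      apply Finset.ext
      intro m
      rw [MvPolynomial.mem_support_iff, MvPolynomial.mem_support_iff, MvPolynomial.coeff_C_mul,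
        mul_ne_zero_iff]
      exact ⟨fun h => h.2, fun h => ⟨hz1 v, h⟩⟩
    · rw [hD] at hG hq
      have hcG : ∀ m, MvPolynomial.coeff m (gnG D v) = MvPolynomial.X (v, 0) *
          ∑ y, if ψ y then algebraMap ℝ (GnS s) (κ y) *
            ((∏ j : Fin N, if y j then (MvPolynomial.X (v, (j : ℕ) + 1) : GnS s) else 1) *
              MvPolynomial.coeff m (∏ j, gnG D (c j (y j)))) else 0 := by
        intro m
        rw [hG]
        exact gn_coeff_orc (fun i => (MvPolynomial.X (v, i) : GnS s)) ψ κ
          (fun j b => gnG D (c j b)) m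
      have hcQ : ∀ m, MvPolynomial.coeff m (Q v) = z v 0 *
          ∑ y, if ψ y then algebraMap ℝ ℝ (κ y) *
            ((∏ j : Fin N, if y j then z v ((j : ℕ) + 1) else 1) *
              MvPolynomial.coeff m (∏ j, Q (c j (y j)))) else 0 := by
        intro m
        have h1 := congrArg (MvPolynomial.coeff m) hq
        exact h1.trans (gn_coeff_orc (fun i => z v i) ψ κ (fun j b => Q (c j b)) m)
      have hQp : ∀ (y : Fin N → Bool) m, MvPolynomial.coeff m (∏ j, Q (c j (y j))) =
          φ (MvPolynomial.coeff m (∏ j, gnG D (c j (y j)))) := by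
        intro y m
        rw [← gn_coeff, map_prod, hQ]
      show (∀ y, ψ y → (∏ j, Q (c j (y j))).support ⊆ (Q v).support) ∧
        ∀ m ∈ (Q v).support, ∃ y, ψ y ∧ m ∈ (∏ j, Q (c j (y j))).support
      constructor
      · intro y hy m hm
        rw [MvPolynomial.mem_support_iff] at hm ⊢
        intro h1
        rw [← hQ0, hcG] at h1
        have h2 := (mul_eq_zero.1 h1).resolve_left (MvPolynomial.X_ne_zero _)
        have h3 := gn_can_orc D v ψ κ c hκ hc m h2 y hy
        apply hm
        rw [hQp, h3, map_zero]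
      · intro m hm
        by_contra hcon
        push Not at hcon
        rw [MvPolynomial.mem_support_iff, hcQ] at hm
        apply hm
        rw [Finset.sum_eq_zero, mul_zero]
        intro y _
        by_cases hy : ψ y
        · have h1 := hcon y hy
          rw [MvPolynomial.notMem_support_iff] at h1
          rw [if_pos hy, h1, mul_zero, mul_zero]
        · rw [if_neg hy]

end Pool.Agent.SFF
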