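import Pool.Agent.SFF.One
import Pool.Agent.SFP.Cnv

/-!
# One exact call of an oracle for a 2-CNF counts the models

The circuit of `One`, for every class of relations which contains the 2-CNF.
-/

set_option autoImplicit false

namespace Pool.Agent.SFF

open Finset Pool.Agent.STH Pool.Agent.STD Pool.Agent.STS Pool.Agent.SFR Pool.Agent.SFP

/-- the circuit: the inputs, the constant `1`, and one call -/
noncomputable def Onc_circ {n M : ℕ} (K : Cls) (cl : Fin M → Fin n × Bool → Prop)
    (hK : K (n + M) (One_cnv cl)) : Circ K n (2 * n + 2) := fun v =>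
  if h : v.val < 2 * n then .inp ⟨v.val / 2, by omega⟩ (decide (v.val % 2 = 1))
  else if h' : v.val = 2 * n then .const 1
  else .orc (n + M) (One_cnv cl) One_sgn (One_arg n M) hK
    (fun y _ => One_sgn_ne y) (fun j b => by
      have h1 := One_arg_lt n M j b
      have h2 := v.isLt
      rw [Fin.lt_def]
      omega)

/-- [One, form (C)] in exact arithmetic one call of an oracle for weighted `#2`-SAT, with signs,
computes the weighted number of models. -/
theorem Onc_exact {n M : ℕ} (K : Cls) (cl : Fin M → Fin n × Bool → Prop)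
    (hK : K (n + M) (One_cnv cl)) (w : Fin n → Bool → ℝ) (f : Fin (2 * n + 2) → ℝ)
    (hf : IsRun (Onc_circ K cl hK) (fun _ _ => 1) w f) :
    f ⟨2 * n + 1, by omega⟩ = wcount (fun x => ∀ j, ∃ l, cl j l ∧ x l.1 = l.2) w := by
  have h1 : ∀ (i : Fin n) (b : Bool), f (One_arg n M (Fin.castAdd M i) b) = w i b := by
    intro i b
    have e : One_arg n M (Fin.castAdd M i) b =
        ⟨2 * i.val + (if b then 1 else 0), by have := i.isLt; split_ifs <;> omega⟩ := by
      unfold One_arg
      rw [Fin.addCases_left]
    have hi := i.isLt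
    have hv := hf (One_arg n M (Fin.castAdd M i) b)
    rw [e] at hv ⊢
    have hlt : 2 * i.val + (if b then 1 else 0) < 2 * n := by split_ifs <;> omega
    have hg : Onc_circ K cl hK ⟨2 * i.val + (if b then 1 else 0), by omega⟩ =
        .inp ⟨(2 * i.val + (if b then 1 else 0)) / 2, by omega⟩
          (decide ((2 * i.val + (if b then 1 else 0)) % 2 = 1)) := by
      unfold Onc_circ
      exact dif_pos hlt
    rw [hg] at hv
    dsimp only at hv
    rw [hv]
    cases b
    · have e1 : (⟨(2 * i.val + (if false = true then 1 else 0)) / 2, by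
          simp only [Bool.false_eq_true, if_false]; omega⟩ : Fin n) = i := by
        apply Fin.ext
        simp only [Bool.false_eq_true, if_false]
        omega
      have e2 : decide ((2 * i.val + (if false = true then 1 else 0)) % 2 = 1) = false := by
        simp only [Bool.false_eq_true, if_false]
        apply decide_eq_false
        omega
      rw [e1, e2]
    · have e1 : (⟨(2 * i.val + (if true = true then 1 else 0)) / 2, by
          simp only [if_true]; omega⟩ : Fin n) = i := by
        apply Fin.ext
        simp only [if_true]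
        omega
      have e2 : decide ((2 * i.val + (if true = true then 1 else 0)) % 2 = 1) = true := by
        simp only [if_true]
        apply decide_eq_true
        omega
      rw [e1, e2]
  have h2 : ∀ (j : Fin M) (b : Bool), f (One_arg n M (Fin.natAdd n j) b) = 1 := by
    intro j b
    have e : One_arg n M (Fin.natAdd n j) b = ⟨2 * n, by omega⟩ := by
      unfold One_arg
      rw [Fin.addCases_right]
    have hv := hf (One_arg n M (Fin.natAdd n j) b)
    rw [e] at hv ⊢
    unfold Onc_circ at hv
    rw [dif_neg (by simp), dif_pos rfl] at hv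
    exact hv
  have h3 := hf ⟨2 * n + 1, by omega⟩
  unfold Onc_circ at h3
  rw [dif_neg (by simp), dif_neg (by simp)] at h3
  dsimp only at h3
  rw [h3, one_mul, ← One_sum]
  refine Finset.sum_congr rfl fun y _ => ?_
  by_cases h : One_cnv cl y
  · rw [if_pos h, if_pos h, Fin.prod_univ_add]
    simp only [h1, h2, ite_self, mul_one, one_mul, Finset.prod_const_one]
  · rw [if_neg h, if_neg h]

/-- the last node is an oracle call -/
theorem Onc_last {n M : ℕ} (K : Cls) (cl : Fin M → Fin n × Bool → Prop)
    (hK : K (n + M) (One_cnv cl)) : ∃ (N : ℕ) (ψ : (Fin N → Bool) → Prop)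
      (κ : (Fin N → Bool) → ℝ) (c : Fin N → Bool → Fin (2 * n + 2)) (hψ : K N ψ)
      (hκ : ∀ y, ψ y → κ y ≠ 0) (hc : ∀ j b, c j b < ⟨2 * n + 1, by omega⟩),
      Onc_circ K cl hK ⟨2 * n + 1, by omega⟩ = .orc N ψ κ c hψ hκ hc := by
  unfold Onc_circ
  rw [dif_neg (by simp), dif_neg (by simp)]
  exact ⟨_, _, _, _, _, _, _, rfl⟩

/-- all nodes but the last are inputs and the constant `1` -/
theorem Onc_nodes {n M : ℕ} (K : Cls) (cl : Fin M → Fin n × Bool → Prop)
    (hK : K (n + M) (One_cnv cl)) (v : Fin (2 * n + 2)) (hv : v ≠ ⟨2 * n + 1, by omega⟩) :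
    (∃ i b, Onc_circ K cl hK v = .inp i b) ∨ Onc_circ K cl hK v = .const 1 := by
  unfold Onc_circ
  by_cases h : v.val < 2 * n
  · rw [dif_pos h]
    exact Or.inl ⟨_, _, rfl⟩
  · have h' : v.val = 2 * n := by
      have h1 := v.isLt
      have h2 : v.val ≠ 2 * n + 1 := fun h3 => hv (Fin.ext h3)
      omega
    rw [dif_neg h, dif_pos h']
    exact Or.inr rfl

/-- the relation is a 2-CNF -/
theorem Onc_two {n k M : ℕ} (φ : Fm n k M) (y : Fin (n + M) → Bool) :
    One_cnv (fun j l => ∃ i, φ j i = l) y ↔ STH.Mod (two φ) y := by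
  obtain ⟨⟨x, u⟩, rfl⟩ := (Fin.appendEquiv n M).surjective y
  change One_cnv _ (Fin.append x u) ↔ STH.Mod (two φ) (Fin.append x u)
  rw [mod_two]
  unfold One_cnv
  constructor
  · intro h j hj i
    have := h j (φ j i) ⟨i, rfl⟩ (by rw [Fin.append_right]; exact hj)
    rwa [Fin.append_left] at this
  · rintro h j l ⟨i, rfl⟩ hj
    rw [Fin.append_right] at hj
    rw [Fin.append_left]
    exact h j hj i

end Pool.Agent.SFF
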