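import Pool.Agent.SFF.Defs

/-!
# One exact call with one negative constant counts the models

The converse of the lower bounds for monotone and for numerically stable algorithms: in exact
arithmetic one call to weighted `#2`-SAT with the weights `w i b`, `1` and `-1` computes the weighted
number of models of any CNF. A clause is replaced by a new variable `u` which implies that all
literals of the clause are false, with the weights `1` for `u = 0` and `-1` for `u = 1`.
-/

set_option autoImplicit false

namespace Pool.Agent.SFF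

open Finset Pool.Agent.STH Pool.Agent.STD Pool.Agent.STS Pool.Agent.SFR Pool.Agent.SFP

/-- the 2-CNF: the new variable `j` implies that all literals of the clause `j` are false -/
def One_cnv {n M : ℕ} (cl : Fin M → Fin n × Bool → Prop) (y : Fin (n + M) → Bool) : Prop :=
  ∀ j l, cl j l → y (Fin.natAdd n j) = true → y (Fin.castAdd M l.1) ≠ l.2

/-- the sign -/
def One_sgn {n M : ℕ} (y : Fin (n + M) → Bool) : ℝ :=
  ∏ j : Fin M, if y (Fin.natAdd n j) then (-1 : ℝ) else 1

theorem One_sgn_ne {n M : ℕ} (y : Fin (n + M) → Bool) : One_sgn y ≠ 0 := by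
  unfold One_sgn
  rw [Finset.prod_ne_zero_iff]
  intro j _
  split_ifs <;> norm_num

theorem One_closed {n M : ℕ} (cl : Fin M → Fin n × Bool → Prop) : SchClosed (One_cnv cl) := by
  refine ⟨fun _ a b c => ((a && b) || (a && c) || (b && c)), fun i => Or.inr (Or.inr (Or.inl
    fun _ _ _ => rfl)), fun x y w hx hy hw => ?_⟩
  intro j l hl hj
  have h1 := hx j l hl
  have h2 := hy j l hl
  have h3 := hw j l hl
  simp only [ap] at hj ⊢
  generalize x (Fin.natAdd n j) = a1 at *
  generalize y (Fin.natAdd n j) = a2 at *
  generalize w (Fin.natAdd n j) = a3 at *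
  generalize x (Fin.castAdd M l.1) = b1 at *
  generalize y (Fin.castAdd M l.1) = b2 at *
  generalize w (Fin.castAdd M l.1) = b3 at *
  generalize l.2 = b at *
  revert h1 h2 h3 hj
  revert a1 a2 a3 b1 b2 b3 b
  decide

theorem One_union {n M : ℕ} (m : ℕ) (cl : Fin M → Fin n × Bool → Prop) :
    SchUnion m (One_cnv cl) :=
  ⟨fun _ => One_cnv cl, fun _ => One_closed cl, fun _ =>
    ⟨fun h => ⟨⟨0, by positivity⟩, h⟩, fun ⟨_, h⟩ => h⟩⟩

open Classical in
/-- the sum over the new variables -/
theorem One_inner {n M : ℕ} (cl : Fin M → Fin n × Bool → Prop) (x : Fin n → Bool) :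
    (∑ u : Fin M → Bool, if One_cnv cl (Fin.append x u) then
      ∏ j, (if u j then (-1 : ℝ) else 1) else 0) =
      if ∀ j, ∃ l, cl j l ∧ x l.1 = l.2 then 1 else 0 := by
  have e1 : ∀ u : Fin M → Bool, (if One_cnv cl (Fin.append x u) then
      ∏ j, (if u j then (-1 : ℝ) else 1) else 0) =
      ∏ j, (if u j then (if ∃ l, cl j l ∧ x l.1 = l.2 then 0 else (-1 : ℝ)) else 1) := by
    intro u
    by_cases h : One_cnv cl (Fin.append x u)
    · rw [if_pos h]
      refine Finset.prod_congr rfl fun j _ => ?_
      by_cases hu : u j = true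
      · rw [if_pos hu, if_pos hu, if_neg]
        rintro ⟨l, hl, hx⟩
        have := h j l hl (by rw [Fin.append_right]; exact hu)
        rw [Fin.append_left] at this
        exact this hx
      · rw [if_neg hu, if_neg hu]
    · rw [if_neg h]
      unfold One_cnv at h
      push Not at h
      obtain ⟨j, l, hl, hj, hx⟩ := h
      rw [Fin.append_right] at hj
      rw [Fin.append_left] at hx
      symm
      refine Finset.prod_eq_zero (Finset.mem_univ j) ?_
      rw [if_pos hj, if_pos ⟨l, hl, hx⟩]
  rw [Finset.sum_congr rfl fun u _ => e1 u]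
  have e2 : (∏ j : Fin M, ∑ b : Bool,
      (if b then (if ∃ l, cl j l ∧ x l.1 = l.2 then 0 else (-1 : ℝ)) else 1)) =
      ∑ u : Fin M → Bool,
        ∏ j, (if u j then (if ∃ l, cl j l ∧ x l.1 = l.2 then 0 else (-1 : ℝ)) else 1) := by
    rw [Finset.prod_univ_sum, Fintype.piFinset_univ]
  rw [← e2]
  by_cases h : ∀ j, ∃ l, cl j l ∧ x l.1 = l.2
  · rw [if_pos h]
    refine Finset.prod_eq_one fun j _ => ?_
    rw [Fintype.sum_bool, if_pos rfl, if_pos (h j), if_neg Bool.false_ne_true, zero_add]
  · rw [if_neg h]
    push Not at h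
    obtain ⟨j, hj⟩ := h
    refine Finset.prod_eq_zero (Finset.mem_univ j) ?_
    rw [Fintype.sum_bool, if_pos rfl, if_neg (by push Not; exact hj), if_neg Bool.false_ne_true]
    norm_num

open Classical in
/-- the signed sum over the 2-CNF is the weighted number of models -/
theorem One_sum {n M : ℕ} (cl : Fin M → Fin n × Bool → Prop) (w : Fin n → Bool → ℝ) :
    (∑ y : Fin (n + M) → Bool, if One_cnv cl y then
      One_sgn y * ∏ i : Fin n, w i (y (Fin.castAdd M i)) else 0) =
      wcount (fun x => ∀ j, ∃ l, cl j l ∧ x l.1 = l.2) w := by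
  rw [← Equiv.sum_comp (Fin.appendEquiv n M), Fintype.sum_prod_type]
  unfold wcount
  refine Finset.sum_congr rfl fun x _ => ?_
  have e : ∀ u : Fin M → Bool, (if One_cnv cl (Fin.appendEquiv n M (x, u)) then
      One_sgn (Fin.appendEquiv n M (x, u)) *
        ∏ i : Fin n, w i (Fin.appendEquiv n M (x, u) (Fin.castAdd M i)) else 0) =
      (∏ i, w i (x i)) * (if One_cnv cl (Fin.append x u) then
        ∏ j, (if u j then (-1 : ℝ) else 1) else 0) := by
    intro u
    have e0 : Fin.appendEquiv n M (x, u) = Fin.append x u := rfl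
    rw [e0]
    by_cases h : One_cnv cl (Fin.append x u)
    · rw [if_pos h, if_pos h, mul_comm]
      unfold One_sgn
      simp only [Fin.append_left, Fin.append_right]
    · rw [if_neg h, if_neg h, mul_zero]
  rw [Finset.sum_congr rfl fun u _ => e u, ← Finset.mul_sum, One_inner]
  by_cases h : ∀ j, ∃ l, cl j l ∧ x l.1 = l.2
  · rw [if_pos h, if_pos h, mul_one]
  · rw [if_neg h, if_neg h, mul_zero]

/-- [One, form (B)] weighted `#`SAT is one call to weighted `#2`-SAT with the weights `w i b`, `1`
and `-1`. -/
theorem One_call {n M : ℕ} (cl : Fin M → Fin n × Bool → Prop) :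
    SchUnion 0 (One_cnv cl) ∧ ∀ w : Fin n → Bool → ℝ,
      wcount (fun x => ∀ j, ∃ l, cl j l ∧ x l.1 = l.2) w =
        wcount (One_cnv cl) (Fin.addCases (fun i b => w i b) fun _ b => if b then -1 else 1) := by
  refine ⟨One_union 0 cl, fun w => ?_⟩
  rw [← One_sum]
  unfold wcount
  refine Finset.sum_congr rfl fun y _ => ?_
  by_cases h : One_cnv cl y
  · rw [if_pos h, if_pos h, Fin.prod_univ_add, mul_comm]
    simp only [Fin.addCases_left, Fin.addCases_right]
    rfl
  · rw [if_neg h, if_neg h]

open Classical in
/-- the value of the node `v` if the other nodes have the values `g` -/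
noncomputable def One_step {K : Cls} {n s : ℕ} (D : Circ K n s) (z : Fin s → ℕ → ℝ)
    (w : Fin n → Bool → ℝ) (g : Fin s → ℝ) (v : Fin s) : ℝ :=
  match D v with
    | .inp i b => w i b
    | .const c => c
    | .lin A B a b _ _ => z v 0 * (A * g a + B * g b)
    | .mul a b _ _ => z v 0 * (g a * g b)
    | .orc _ ψ κ c _ _ _ => z v 0 * ∑ y, if ψ y then
        κ y * ∏ j, (if y j then z v (j + 1) else 1) * g (c j (y j)) else 0

theorem One_step_congr {K : Cls} {n s : ℕ} (D : Circ K n s) (z : Fin s → ℕ → ℝ)
    (w : Fin n → Bool → ℝ) (g g' : Fin s → ℝ) (v : Fin s) (h : ∀ u, u < v → g u = g' u) :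
    One_step D z w g v = One_step D z w g' v := by
  unfold One_step
  generalize D v = G
  cases G with
  | inp i b => rfl
  | const c => rfl
  | lin A B a b ha hb => dsimp only; rw [h a ha, h b hb]
  | mul a b ha hb => dsimp only; rw [h a ha, h b hb]
  | orc N ψ κ c hψ hκ hc =>
    dsimp only
    congr 1
    refine Finset.sum_congr rfl fun y _ => ?_
    by_cases hy : ψ y
    · rw [if_pos hy, if_pos hy]
      congr 1
      exact Finset.prod_congr rfl fun j _ => by rw [h _ (hc j (y j))]
    · rw [if_neg hy, if_neg hy]

/-- every circuit has a run -/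
theorem One_run {K : Cls} {n s : ℕ} (D : Circ K n s) (z : Fin s → ℕ → ℝ)
    (w : Fin n → Bool → ℝ) : ∃ f, IsRun D z w f := by
  let F : ℕ → Fin s → ℝ := fun t => Nat.rec (fun _ => 0) (fun _ g v => One_step D z w g v) t
  have hF : ∀ t v, F (t + 1) v = One_step D z w (F t) v := fun _ _ => rfl
  have hstab : ∀ t (v : Fin s), v.val < t → F (t + 1) v = F t v := by
    intro t
    induction t with
    | zero => intro v hv; exact absurd hv (Nat.not_lt_zero _)
    | succ t ih =>
      intro v hv
      rw [hF (t + 1) v, hF t v]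
      exact One_step_congr D z w _ _ v fun u hu => ih u (by rw [Fin.lt_def] at hu; omega)
  refine ⟨F s, fun v => ?_⟩
  have h1 := hstab s v v.isLt
  rw [hF] at h1
  unfold One_step at h1
  generalize D v = G at h1 ⊢
  cases G <;> exact h1.symm

/-- the arguments of the call -/
def One_arg (n M : ℕ) (j : Fin (n + M)) (b : Bool) : Fin (2 * n + 2) :=
  Fin.addCases (motive := fun _ => Fin (2 * n + 2))
    (fun i => ⟨2 * i.val + (if b then 1 else 0), by have := i.isLt; split_ifs <;> omega⟩)
    (fun _ => ⟨2 * n, by omega⟩) j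

theorem One_arg_lt (n M : ℕ) (j : Fin (n + M)) (b : Bool) : (One_arg n M j b).val < 2 * n + 1 := by
  unfold One_arg
  refine Fin.addCases (fun i => ?_) (fun i => ?_) j
  · rw [Fin.addCases_left]
    have := i.isLt
    dsimp only
    split_ifs <;> omega
  · rw [Fin.addCases_right]
    dsimp only
    omega

/-- the circuit: the inputs, the constant `1`, and one call -/
noncomputable def One_circ {n M : ℕ} (K : Cls)
    (hK : ∀ (N : ℕ) (ψ : (Fin N → Bool) → Prop), SchUnion 0 ψ → K N ψ)
    (cl : Fin M → Fin n × Bool → Prop) : Circ K n (2 * n + 2) := fun v =>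
  if h : v.val < 2 * n then .inp ⟨v.val / 2, by omega⟩ (decide (v.val % 2 = 1))
  else if h' : v.val = 2 * n then .const 1
  else .orc (n + M) (One_cnv cl) One_sgn (One_arg n M) (hK _ _ (One_union 0 cl))
    (fun y _ => One_sgn_ne y) (fun j b => by
      have h1 := One_arg_lt n M j b
      have h2 := v.isLt
      rw [Fin.lt_def]
      omega)

/-- [One, form (C)] in exact arithmetic one call of an oracle for weighted `#2`-SAT, with signs,
computes the weighted number of models. -/
theorem One_exact {n M : ℕ} (K : Cls)
    (hK : ∀ (N : ℕ) (ψ : (Fin N → Bool) → Prop), SchUnion 0 ψ → K N ψ)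
    (cl : Fin M → Fin n × Bool → Prop) (w : Fin n → Bool → ℝ) (f : Fin (2 * n + 2) → ℝ)
    (hf : IsRun (One_circ K hK cl) (fun _ _ => 1) w f) :
    f ⟨2 * n + 1, by omega⟩ = wcount (fun x => ∀ j, ∃ l, cl j l ∧ x l.1 = l.2) w := by
  have h1 : ∀ (i : Fin n) (b : Bool), f (One_arg n M (Fin.castAdd M i) b) = w i b := by
    intro i b
    have e : One_arg n M (Fin.castAdd M i) b =
        ⟨2 * i.val + (if b then 1 else 0), by have := i.isLt; split_ifs <;> omega⟩ := by
      unfold One_arg
      rw [Fin.addCases_left]
    have hi := i.isLt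
    have hv := hf (One_arg n M (Fin.castAdd M i) b)
    rw [e] at hv ⊢
    have hlt : 2 * i.val + (if b then 1 else 0) < 2 * n := by split_ifs <;> omega
    have hg : One_circ K hK cl ⟨2 * i.val + (if b then 1 else 0), by omega⟩ =
        .inp ⟨(2 * i.val + (if b then 1 else 0)) / 2, by omega⟩
          (decide ((2 * i.val + (if b then 1 else 0)) % 2 = 1)) := by
      unfold One_circ
      exact dif_pos hlt
    rw [hg] at hv
    dsimp only at hv
    rw [hv]
    cases b
    · have e1 : (⟨(2 * i.val + (if false = true then 1 else 0)) / 2, by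
          simp only [Bool.false_eq_true, if_false]; omega⟩ : Fin n) = i := by
        apply Fin.ext
        simp only [Bool.false_eq_true, if_false]
        omega
      have e2 : decide ((2 * i.val + (if false = true then 1 else 0)) % 2 = 1) = false := by
        simp only [Bool.false_eq_true, if_false]
        apply decide_eq_false
        omega
      rw [e1, e2]
    · have e1 : (⟨(2 * i.val + (if true = true then 1 else 0)) / 2, by
          simp only [if_true]; omega⟩ : Fin n) = i := by
        apply Fin.ext
        simp only [if_true]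
        omega
      have e2 : decide ((2 * i.val + (if true = true then 1 else 0)) % 2 = 1) = true := by
        simp only [if_true]
        apply decide_eq_true
        omega
      rw [e1, e2]
  have h2 : ∀ (j : Fin M) (b : Bool), f (One_arg n M (Fin.natAdd n j) b) = 1 := by
    intro j b
    have e : One_arg n M (Fin.natAdd n j) b = ⟨2 * n, by omega⟩ := by
      unfold One_arg
      rw [Fin.addCases_right]
    have hv := hf (One_arg n M (Fin.natAdd n j) b)
    rw [e] at hv ⊢
    unfold One_circ at hv
    rw [dif_neg (by simp), dif_pos rfl] at hv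
    exact hv
  have h3 := hf ⟨2 * n + 1, by omega⟩
  unfold One_circ at h3
  rw [dif_neg (by simp), dif_neg (by simp)] at h3
  dsimp only at h3
  rw [h3, one_mul, ← One_sum]
  refine Finset.sum_congr rfl fun y _ => ?_
  by_cases h : One_cnv cl y
  · rw [if_pos h, if_pos h, Fin.prod_univ_add]
    simp only [h1, h2, ite_self, mul_one, one_mul, Finset.prod_const_one]
  · rw [if_neg h, if_neg h]

end Pool.Agent.SFF
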